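import Pool.Agent.RelT.HOLB

/-!
# Supergales do not grow when the mean entropy is large
-/

set_option autoImplicit false

namespace Pool.Agent.RelT

open MeasureTheory Set
open scoped ENNReal

/-- The process. -/
def prc {Ω : Type} (b : ℕ → Ω → Bool) (X : ℕ → Bool → Ω → ℝ) (Y : Ω → ℝ) : ℕ → Ω → ℝ
  | 0, ω => Y ω
  | t + 1, ω => X t (b t ω) ω

/-- The weight. -/
noncomputable def wgt {Ω : Type} (p : ℕ → Ω → ℝ) (s θ η : ℝ) (T : ℕ) (ω : Ω) : ℝ :=
  Real.exp (θ * ∑ t ∈ Finset.range T, (Real.binEntropy (p t ω) - s * Real.log 2 - η))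

/-- The conditions on a process. -/
structure Cond {Ω : Type} [MeasurableSpace Ω] (μ : Measure Ω) (b : ℕ → Ω → Bool)
    (X : ℕ → Bool → Ω → ℝ) (Y : Ω → ℝ) (p : ℕ → Ω → ℝ) (r : ℕ → Ω → Ω → Prop) (ε : ℕ → ℝ)
    (a θ η : ℝ) : Prop where
  hb : ∀ t, Measurable (b t)
  hX : ∀ t i, Measurable (X t i)
  hY : Measurable Y
  hp : ∀ t, Measurable (p t)
  hYr : ∀ t ω ω', r t ω ω' → Y ω = Y ω'
  hbr : ∀ s t, s < t → ∀ ω ω', r t ω ω' → b s ω = b s ω'
  hXr : ∀ s t, s ≤ t → ∀ i ω ω', r t ω ω' → X s i ω = X s i ω'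
  hpr : ∀ s t, s ≤ t → ∀ ω ω', r t ω ω' → p s ω = p s ω'
  hφ : ∀ (t : ℕ) (i : Bool) (H : Ω → ℝ≥0∞), Measurable H → (∀ ω ω', r t ω ω' → H ω = H ω') →
    ∫⁻ ω in {ω | b t ω = i}, H ω ∂μ =
      ∫⁻ ω, ENNReal.ofReal (if i = false then p t ω else 1 - p t ω) * H ω ∂μ
  hX0 : ∀ t i ω, 0 ≤ X t i ω
  hY0 : ∀ ω, 0 ≤ Y ω
  hp0 : ∀ t ω, 0 ≤ p t ω
  hp1 : ∀ t ω, p t ω ≤ 1
  hε : ∀ t, 0 ≤ ε t
  ha : 0 ≤ a
  hθ0 : 0 < θ
  hθ1 : θ < 1
  hη : 2 * θ ≤ η * (1 - θ)

/-- The samples on which the process is nearly a supergale before time `T`. -/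
def GG {Ω : Type} (b : ℕ → Ω → Bool) (X : ℕ → Bool → Ω → ℝ) (Y : Ω → ℝ) (ε : ℕ → ℝ)
    (a s : ℝ) (T : ℕ) : Set Ω :=
  {ω | Y ω ≤ a ∧ ∀ t < T, X t false ω + X t true ω ≤ (2 : ℝ) ^ s * (prc b X Y t ω + ε t)}

namespace CRSB_

variable {Ω : Type} [MeasurableSpace Ω] {μ : Measure Ω} {b : ℕ → Ω → Bool}
  {X : ℕ → Bool → Ω → ℝ} {Y : Ω → ℝ} {p : ℕ → Ω → ℝ} {r : ℕ → Ω → Ω → Prop} {ε : ℕ → ℝ}
  {a θ η : ℝ}

lemma Dm (h : Cond μ b X Y p r ε a θ η) (t : ℕ) : Measurable (prc b X Y t) := by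
  cases t with
  | zero => exact h.hY
  | succ t =>
    have h1 : prc b X Y (t + 1) = fun ω => if b t ω = true then X t true ω else X t false ω := by
      funext ω
      show X t (b t ω) ω = _
      cases b t ω <;> simp
    rw [h1]
    exact Measurable.ite (h.hb t (measurableSet_singleton true)) (h.hX t true) (h.hX t false)

lemma Dn (h : Cond μ b X Y p r ε a θ η) (t : ℕ) (ω : Ω) : 0 ≤ prc b X Y t ω := by
  cases t with
  | zero => exact h.hY0 ω
  | succ t => exact h.hX0 _ _ _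

lemma Df (h : Cond μ b X Y p r ε a θ η) {s t : ℕ} (hst : s ≤ t) {ω ω' : Ω} (hr : r t ω ω') :
    prc b X Y s ω = prc b X Y s ω' := by
  cases s with
  | zero => exact h.hYr t ω ω' hr
  | succ s =>
    show X s (b s ω) ω = X s (b s ω') ω'
    rw [h.hbr s t (by omega) ω ω' hr, h.hXr s t (by omega) _ ω ω' hr]

lemma Gm (h : Cond μ b X Y p r ε a θ η) (s : ℝ) (T : ℕ) : MeasurableSet (GG b X Y ε a s T) := by
  have h1 : GG b X Y ε a s T = {ω | Y ω ≤ a} ∩ ⋂ t, ⋂ (_ : t < T),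
      {ω | X t false ω + X t true ω ≤ (2 : ℝ) ^ s * (prc b X Y t ω + ε t)} := by
    ext ω
    simp only [GG, mem_ofPred_eq, mem_inter_iff, mem_iInter]
  rw [h1]
  refine (measurableSet_le h.hY measurable_const).inter ?_
  refine MeasurableSet.iInter fun t => MeasurableSet.iInter fun _ => ?_
  exact measurableSet_le ((h.hX t false).add (h.hX t true))
    (((Dm h t).add_const (ε t)).const_mul _)

lemma Gf (h : Cond μ b X Y p r ε a θ η) (s : ℝ) {T : ℕ} {ω ω' : Ω} (hr : r T ω ω') :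
    ω ∈ GG b X Y ε a s (T + 1) ↔ ω' ∈ GG b X Y ε a s (T + 1) := by
  simp only [GG, mem_ofPred_eq]
  rw [h.hYr T ω ω' hr]
  refine and_congr_right fun _ => forall_congr' fun t => forall_congr' fun ht => ?_
  rw [Df h (by omega : t ≤ T) hr, h.hXr t T (by omega) _ ω ω' hr, h.hXr t T (by omega) _ ω ω' hr]

lemma Wm (h : Cond μ b X Y p r ε a θ η) (s : ℝ) (T : ℕ) : Measurable (wgt p s θ η T) := by
  unfold wgt
  refine Real.measurable_exp.comp (Measurable.const_mul ?_ θ)
  refine Finset.measurable_sum _ fun t _ => ?_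
  exact ((Real.binEntropy_continuous.measurable.comp (h.hp t)).sub_const _).sub_const _

lemma Wf (h : Cond μ b X Y p r ε a θ η) (s : ℝ) {T T' : ℕ} (hT : T ≤ T' + 1) {ω ω' : Ω}
    (hr : r T' ω ω') : wgt p s θ η T ω = wgt p s θ η T ω' := by
  unfold wgt
  congr 2
  refine Finset.sum_congr rfl fun t ht => ?_
  rw [Finset.mem_range] at ht
  rw [h.hpr t T' (by omega) ω ω' hr]

omit [MeasurableSpace Ω] in
lemma W0 (s : ℝ) (T : ℕ) (ω : Ω) : 0 < wgt p s θ η T ω := Real.exp_pos _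

/-- The weight is not large. -/
lemma Wle (h : Cond μ b X Y p r ε a θ η) (s : ℝ) (T : ℕ) (ω : Ω) :
    wgt p s θ η T ω ≤ (2 : ℝ) ^ (θ * (1 + |s|) * T) := by
  have hlog : 0 < Real.log 2 := Real.log_pos (by norm_num)
  have hη0 : 0 ≤ η := by
    have h1 := h.hθ0
    have h2 := h.hθ1
    have h3 := h.hη
    by_contra hn
    push Not at hn
    have : η * (1 - θ) < 0 := mul_neg_of_neg_of_pos hn (by linarith)
    linarith
  have h1 : ∑ t ∈ Finset.range T, (Real.binEntropy (p t ω) - s * Real.log 2 - η) ≤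
      (1 + |s|) * T * Real.log 2 := by
    calc ∑ t ∈ Finset.range T, (Real.binEntropy (p t ω) - s * Real.log 2 - η)
        ≤ ∑ t ∈ Finset.range T, ((1 + |s|) * Real.log 2) := by
          refine Finset.sum_le_sum fun t _ => ?_
          have e1 : Real.binEntropy (p t ω) ≤ Real.log 2 := Real.binEntropy_le_log_two
          have e2 : -(s * Real.log 2) ≤ |s| * Real.log 2 := by
            have := neg_abs_le s
            nlinarith
          linarith
      _ = _ := by
          rw [Finset.sum_const, Finset.card_range, nsmul_eq_mul]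
          ring
  unfold wgt
  rw [Real.rpow_def_of_pos (by norm_num)]
  apply Real.exp_le_exp.2
  calc θ * ∑ t ∈ Finset.range T, (Real.binEntropy (p t ω) - s * Real.log 2 - η)
      ≤ θ * ((1 + |s|) * T * Real.log 2) := mul_le_mul_of_nonneg_left h1 h.hθ0.le
    _ = _ := by ring

/-- One step. -/
lemma step (h : Cond μ b X Y p r ε a θ η) (s : ℝ) (T : ℕ) [IsProbabilityMeasure μ] :
    ∫⁻ ω in GG b X Y ε a s (T + 1),
        ENNReal.ofReal (wgt p s θ η (T + 1) ω * (prc b X Y (T + 1) ω) ^ θ) ∂μ ≤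
      (∫⁻ ω in GG b X Y ε a s T, ENNReal.ofReal (wgt p s θ η T ω * (prc b X Y T ω) ^ θ) ∂μ) +
        ENNReal.ofReal ((2 : ℝ) ^ (θ * (1 + |s|) * T) * ε T ^ θ) := by
  classical
  have hθ0 := h.hθ0
  obtain ⟨A, hA⟩ : ∃ A : Set Ω, A = GG b X Y ε a s (T + 1) := ⟨_, rfl⟩
  have Am : MeasurableSet A := by rw [hA]; exact Gm h s _
  have hAA : A ⊆ GG b X Y ε a s T := by
    rw [hA]
    intro ω hω
    exact ⟨hω.1, fun t ht => hω.2 t (by omega)⟩
  -- the value after the bit `i`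
  let H : Bool → Ω → ℝ≥0∞ := fun i => A.indicator fun ω =>
    ENNReal.ofReal (wgt p s θ η (T + 1) ω * (X T i ω) ^ θ)
  have Hm : ∀ i, Measurable (H i) := fun i =>
    (((Wm h s (T + 1)).mul ((h.hX T i).pow_const θ)).ennreal_ofReal).indicator Am
  have Hr : ∀ i ω ω', r T ω ω' → H i ω = H i ω' := by
    intro i ω ω' hr
    have h1 : ω ∈ A ↔ ω' ∈ A := by rw [hA]; exact Gf h s hr
    show A.indicator _ ω = A.indicator _ ω'
    by_cases hω : ω ∈ A
    · rw [indicator_of_mem hω, indicator_of_mem (h1.1 hω), Wf h s (by omega : T + 1 ≤ T + 1) hr,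
        h.hXr T T le_rfl i ω ω' hr]
    · rw [indicator_of_notMem hω, indicator_of_notMem fun h' => hω (h1.2 h')]
  have hbm : ∀ i, MeasurableSet {ω | b T ω = i} := fun i => h.hb T (measurableSet_singleton i)
  have h1 : ∫⁻ ω in A, ENNReal.ofReal (wgt p s θ η (T + 1) ω * (prc b X Y (T + 1) ω) ^ θ) ∂μ =
      (∫⁻ ω in {ω | b T ω = false}, H false ω ∂μ) + ∫⁻ ω in {ω | b T ω = true}, H true ω ∂μ := by
    rw [← lintegral_indicator Am, ← lintegral_indicator (hbm false),
      ← lintegral_indicator (hbm true), ← lintegral_add_left ((Hm false).indicator (hbm false))]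
    refine lintegral_congr fun ω => ?_
    have e0 : prc b X Y (T + 1) ω = X T (b T ω) ω := rfl
    by_cases hω : ω ∈ A
    · rw [indicator_of_mem hω, e0]
      cases hb : b T ω
      · rw [indicator_of_mem (show ω ∈ {ω | b T ω = false} from hb),
          indicator_of_notMem (show ω ∉ {ω | b T ω = true} from fun h' => by
            rw [mem_ofPred_eq, hb] at h'; exact absurd h' (by decide)), add_zero]
        show _ = A.indicator _ ω
        rw [indicator_of_mem hω]
      · rw [indicator_of_mem (show ω ∈ {ω | b T ω = true} from hb),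
          indicator_of_notMem (show ω ∉ {ω | b T ω = false} from fun h' => by
            rw [mem_ofPred_eq, hb] at h'; exact absurd h' (by decide)), zero_add]
        show _ = A.indicator _ ω
        rw [indicator_of_mem hω]
    · have e1 : ∀ i, H i ω = 0 := fun i => indicator_of_notMem hω _
      rw [indicator_of_notMem hω]
      simp [indicator, e1]
  have hpm : ∀ i : Bool, Measurable fun ω => ENNReal.ofReal (if i = false then p T ω else
      1 - p T ω) := by
    intro i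
    cases i
    · simp only [if_true]
      exact (h.hp T).ennreal_ofReal
    · simp only [Bool.true_eq_false, if_false]
      exact (measurable_const.sub (h.hp T)).ennreal_ofReal
  have hmm : Measurable fun ω => ENNReal.ofReal (if false = false then p T ω else 1 - p T ω) *
      H false ω := (hpm false).mul (Hm false)
  rw [← hA, h1, h.hφ T false (H false) (Hm false) (Hr false), h.hφ T true (H true) (Hm true)
    (Hr true), ← lintegral_add_left hmm]
  have h2 : ∀ ω, ENNReal.ofReal (if false = false then p T ω else 1 - p T ω) * H false ω +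
      ENNReal.ofReal (if true = false then p T ω else 1 - p T ω) * H true ω ≤
      A.indicator (fun ω => ENNReal.ofReal (wgt p s θ η T ω * (prc b X Y T ω) ^ θ) +
        ENNReal.ofReal ((2 : ℝ) ^ (θ * (1 + |s|) * T) * ε T ^ θ)) ω := by
    intro ω
    by_cases hω : ω ∈ A
    · have e1 : ∀ i, H i ω = ENNReal.ofReal (wgt p s θ η (T + 1) ω * (X T i ω) ^ θ) :=
        fun i => indicator_of_mem hω _
      have hp0 := h.hp0 T ω
      have hp1 := h.hp1 T ω
      have hq : 0 ≤ 1 - p T ω := by linarith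
      have hD0 := Dn h T ω
      have hε0 := h.hε T
      rw [indicator_of_mem hω, e1, e1]
      simp only [if_true, Bool.true_eq_false, if_false]
      rw [← ENNReal.ofReal_mul hp0, ← ENNReal.ofReal_mul hq, ← ENNReal.ofReal_add
        (mul_nonneg hp0 (mul_nonneg (W0 _ _ _).le (Real.rpow_nonneg (h.hX0 _ _ _) _)))
        (mul_nonneg hq (mul_nonneg (W0 _ _ _).le (Real.rpow_nonneg (h.hX0 _ _ _) _))),
        ← ENNReal.ofReal_add (mul_nonneg (W0 _ _ _).le (Real.rpow_nonneg hD0 _))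
          (mul_nonneg (by positivity) (Real.rpow_nonneg hε0 _))]
      apply ENNReal.ofReal_le_ofReal
      have h3 := holb h.hθ0 h.hθ1 h.hη hp0 hp1 (h.hX0 T false ω) (h.hX0 T true ω)
      have h4 : X T false ω + X T true ω ≤ (2 : ℝ) ^ s * (prc b X Y T ω + ε T) := by
        have := hω
        rw [hA] at this
        exact this.2 T (by omega)
      have h5 : (X T false ω + X T true ω) ^ θ ≤
          (2 : ℝ) ^ (s * θ) * ((prc b X Y T ω) ^ θ + ε T ^ θ) := by
        calc (X T false ω + X T true ω) ^ θ ≤ ((2 : ℝ) ^ s * (prc b X Y T ω + ε T)) ^ θ :=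
              Real.rpow_le_rpow (add_nonneg (h.hX0 _ _ _) (h.hX0 _ _ _)) h4 hθ0.le
          _ = (2 : ℝ) ^ (s * θ) * (prc b X Y T ω + ε T) ^ θ := by
              rw [Real.mul_rpow (by positivity) (by positivity), ← Real.rpow_mul (by norm_num)]
          _ ≤ _ := by
              refine mul_le_mul_of_nonneg_left ?_ (by positivity)
              exact Real.rpow_add_le_add_rpow hD0 hε0 hθ0.le h.hθ1.le
      have h6 : wgt p s θ η (T + 1) ω = wgt p s θ η T ω *
          Real.exp (θ * (Real.binEntropy (p T ω) - η)) * (2 : ℝ) ^ (-(s * θ)) := by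
        unfold wgt
        rw [Finset.sum_range_succ, Real.rpow_def_of_pos (by norm_num), ← Real.exp_add,
          ← Real.exp_add]
        congr 1
        ring
      have h7 : Real.exp (θ * (Real.binEntropy (p T ω) - η)) *
          Real.exp (-(θ * (Real.binEntropy (p T ω) - η))) = 1 := by
        rw [← Real.exp_add, add_neg_cancel, Real.exp_zero]
      have h8 : (2 : ℝ) ^ (-(s * θ)) * (2 : ℝ) ^ (s * θ) = 1 := by
        rw [← Real.rpow_add (by norm_num), neg_add_cancel, Real.rpow_zero]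
      have hw := Wle h s T ω
      have hw0 := (W0 (p := p) (θ := θ) (η := η) s T ω).le
      have hw1 := (W0 (p := p) (θ := θ) (η := η) s (T + 1) ω).le
      have hε1 : 0 ≤ ε T ^ θ := Real.rpow_nonneg hε0 _
      have hD1 : 0 ≤ (prc b X Y T ω) ^ θ := Real.rpow_nonneg hD0 _
      calc p T ω * (wgt p s θ η (T + 1) ω * X T false ω ^ θ) +
            (1 - p T ω) * (wgt p s θ η (T + 1) ω * X T true ω ^ θ)
          = wgt p s θ η (T + 1) ω * (p T ω * X T false ω ^ θ + (1 - p T ω) * X T true ω ^ θ) := by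
            ring
        _ ≤ wgt p s θ η (T + 1) ω * ((X T false ω + X T true ω) ^ θ *
            Real.exp (-(θ * (Real.binEntropy (p T ω) - η)))) :=
            mul_le_mul_of_nonneg_left h3 hw1
        _ ≤ wgt p s θ η (T + 1) ω * (((2 : ℝ) ^ (s * θ) * ((prc b X Y T ω) ^ θ + ε T ^ θ)) *
            Real.exp (-(θ * (Real.binEntropy (p T ω) - η)))) :=
            mul_le_mul_of_nonneg_left (mul_le_mul_of_nonneg_right h5 (Real.exp_pos _).le) hw1
        _ = wgt p s θ η T ω * (Real.exp (θ * (Real.binEntropy (p T ω) - η)) *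
            Real.exp (-(θ * (Real.binEntropy (p T ω) - η)))) *
            ((2 : ℝ) ^ (-(s * θ)) * (2 : ℝ) ^ (s * θ)) *
            ((prc b X Y T ω) ^ θ + ε T ^ θ) := by
            rw [h6]
            ring
        _ = wgt p s θ η T ω * (prc b X Y T ω) ^ θ + wgt p s θ η T ω * ε T ^ θ := by
            rw [h7, h8]
            ring
        _ ≤ _ := by
            have := mul_le_mul_of_nonneg_right hw hε1
            linarith
    · have e1 : ∀ i, H i ω = 0 := fun i => indicator_of_notMem hω _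
      rw [e1, e1]
      simp
  refine (lintegral_mono h2).trans ?_
  rw [lintegral_indicator Am, lintegral_add_right _ measurable_const, setLIntegral_const]
  refine add_le_add (lintegral_mono_set hAA) ?_
  calc ENNReal.ofReal ((2 : ℝ) ^ (θ * (1 + |s|) * T) * ε T ^ θ) * μ A
      ≤ ENNReal.ofReal ((2 : ℝ) ^ (θ * (1 + |s|) * T) * ε T ^ θ) * 1 := by
        gcongr
        exact prob_le_one
    _ = _ := mul_one _

/-- The mean of the normalised power. -/
lemma mean (h : Cond μ b X Y p r ε a θ η) (s : ℝ) (T : ℕ) [IsProbabilityMeasure μ] :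
    ∫⁻ ω in GG b X Y ε a s T, ENNReal.ofReal (wgt p s θ η T ω * (prc b X Y T ω) ^ θ) ∂μ ≤
      ENNReal.ofReal (a ^ θ +
        ∑ t ∈ Finset.range T, (2 : ℝ) ^ (θ * (1 + |s|) * t) * ε t ^ θ) := by
  have ht : ∀ t : ℕ, 0 ≤ (2 : ℝ) ^ (θ * (1 + |s|) * t) * ε t ^ θ := fun t =>
    mul_nonneg (by positivity) (Real.rpow_nonneg (h.hε t) _)
  induction T with
  | zero =>
    simp only [Finset.range_zero, Finset.sum_empty, add_zero]
    calc ∫⁻ ω in GG b X Y ε a s 0, ENNReal.ofReal (wgt p s θ η 0 ω * (prc b X Y 0 ω) ^ θ) ∂μ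
        ≤ ∫⁻ _ in GG b X Y ε a s 0, ENNReal.ofReal (a ^ θ) ∂μ := by
          refine setLIntegral_mono measurable_const ?_
          intro ω hω
          apply ENNReal.ofReal_le_ofReal
          have e1 : wgt p s θ η 0 ω = 1 := by simp [wgt]
          rw [e1, one_mul]
          exact Real.rpow_le_rpow (h.hY0 ω) hω.1 h.hθ0.le
      _ = ENNReal.ofReal (a ^ θ) * μ (GG b X Y ε a s 0) := setLIntegral_const _ _
      _ ≤ ENNReal.ofReal (a ^ θ) * 1 := by
          gcongr
          exact prob_le_one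
      _ = _ := mul_one _
  | succ T ih =>
    refine (step h s T).trans ((add_le_add_left ih _).trans (le_of_eq ?_))
    rw [← ENNReal.ofReal_add (add_nonneg (Real.rpow_nonneg h.ha _)
      (Finset.sum_nonneg fun t _ => ht t)) (ht T), Finset.sum_range_succ]
    congr 1
    ring

end CRSB_

open CRSB_ in
/-- The probability that a supergale ever becomes large. -/
theorem crsb {Ω : Type} [MeasurableSpace Ω] {μ : Measure Ω} [IsProbabilityMeasure μ]
    {b : ℕ → Ω → Bool} {X : ℕ → Bool → Ω → ℝ} {Y : Ω → ℝ} {p : ℕ → Ω → ℝ}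
    {r : ℕ → Ω → Ω → Prop} {ε : ℕ → ℝ} {a θ η : ℝ} (h : Cond μ b X Y p r ε a θ η)
    (s G V : ℝ) (hη : 0 < η) (hV : ∀ T, a ^ θ +
      ∑ t ∈ Finset.range T, (2 : ℝ) ^ (θ * (1 + |s|) * t) * ε t ^ θ ≤ V)
    (hG : ∀ (T : ℕ) (ω : Ω), Real.exp (θ * (η * T - G)) ≤ wgt p s θ η T ω) :
    μ {ω | Y ω ≤ a ∧
      (∀ t, X t false ω + X t true ω ≤ (2 : ℝ) ^ s * (prc b X Y t ω + ε t)) ∧
      ∃ t, 1 / 2 ≤ prc b X Y t ω} ≤
    ENNReal.ofReal (V * (2 : ℝ) ^ θ * Real.exp (θ * G) / (1 - Real.exp (-(θ * η)))) := by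
  have hθ0 := h.hθ0
  have hV0 : 0 ≤ V := by
    have := hV 0
    simp only [Finset.range_zero, Finset.sum_empty, add_zero] at this
    exact (Real.rpow_nonneg h.ha _).trans this
  obtain ⟨q, hq⟩ : ∃ q : ℝ, q = Real.exp (-(θ * η)) := ⟨_, rfl⟩
  have hq0 : 0 ≤ q := by rw [hq]; exact (Real.exp_pos _).le
  have hq1 : q < 1 := by
    rw [hq, ← Real.exp_zero]
    exact Real.exp_lt_exp.2 (by nlinarith)
  have hB0 : 0 ≤ V * (2 : ℝ) ^ θ * Real.exp (θ * G) := by positivity
  have h1 : ∀ T, μ (GG b X Y ε a s T ∩ {ω | 1 / 2 ≤ prc b X Y T ω}) ≤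
      ENNReal.ofReal (V * (2 : ℝ) ^ θ * Real.exp (θ * G) * q ^ T) := by
    intro T
    obtain ⟨L, hL⟩ : ∃ L : ℝ, L = Real.exp (θ * (η * T - G)) * (1 / 2 : ℝ) ^ θ := ⟨_, rfl⟩
    have hL0 : 0 < L := by rw [hL]; positivity
    have h2 : ENNReal.ofReal L * μ (GG b X Y ε a s T ∩ {ω | 1 / 2 ≤ prc b X Y T ω}) ≤
        ENNReal.ofReal V := by
      calc ENNReal.ofReal L * μ (GG b X Y ε a s T ∩ {ω | 1 / 2 ≤ prc b X Y T ω})
          = ∫⁻ _ in GG b X Y ε a s T ∩ {ω | 1 / 2 ≤ prc b X Y T ω}, ENNReal.ofReal L ∂μ :=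
            (setLIntegral_const _ _).symm
        _ ≤ ∫⁻ ω in GG b X Y ε a s T ∩ {ω | 1 / 2 ≤ prc b X Y T ω},
            ENNReal.ofReal (wgt p s θ η T ω * (prc b X Y T ω) ^ θ) ∂μ := by
            refine setLIntegral_mono
              (((Wm h s T).mul ((Dm h T).pow_const θ)).ennreal_ofReal) ?_
            intro ω hω
            apply ENNReal.ofReal_le_ofReal
            rw [hL]
            refine mul_le_mul (hG T ω) ?_ (by positivity) (W0 _ _ _).le
            exact Real.rpow_le_rpow (by norm_num) hω.2 hθ0.le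
        _ ≤ ∫⁻ ω in GG b X Y ε a s T,
            ENNReal.ofReal (wgt p s θ η T ω * (prc b X Y T ω) ^ θ) ∂μ :=
            lintegral_mono_set inter_subset_left
        _ ≤ _ := mean h s T
        _ ≤ ENNReal.ofReal V := ENNReal.ofReal_le_ofReal (hV T)
    have h3 : μ (GG b X Y ε a s T ∩ {ω | 1 / 2 ≤ prc b X Y T ω}) ≤
        ENNReal.ofReal (L⁻¹) * ENNReal.ofReal V := by
      calc μ (GG b X Y ε a s T ∩ {ω | 1 / 2 ≤ prc b X Y T ω})
          = ENNReal.ofReal (L⁻¹) * (ENNReal.ofReal L *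
            μ (GG b X Y ε a s T ∩ {ω | 1 / 2 ≤ prc b X Y T ω})) := by
            rw [← mul_assoc, ← ENNReal.ofReal_mul (by positivity), inv_mul_cancel₀ hL0.ne',
              ENNReal.ofReal_one, one_mul]
        _ ≤ _ := by gcongr
    refine h3.trans ?_
    rw [← ENNReal.ofReal_mul (by positivity)]
    apply ENNReal.ofReal_le_ofReal
    apply le_of_eq
    have e1 : L⁻¹ = (2 : ℝ) ^ θ * Real.exp (θ * G) * q ^ T := by
      rw [hL, hq, mul_inv, ← Real.exp_neg, one_div, Real.inv_rpow (by norm_num), inv_inv,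
        ← Real.exp_nat_mul]
      rw [mul_comm, mul_assoc, ← Real.exp_add]
      congr 2
      ring
    rw [e1]
    ring
  have hcov : {ω | Y ω ≤ a ∧
      (∀ t, X t false ω + X t true ω ≤ (2 : ℝ) ^ s * (prc b X Y t ω + ε t)) ∧
      ∃ t, 1 / 2 ≤ prc b X Y t ω} ⊆
      ⋃ T, (GG b X Y ε a s T ∩ {ω | 1 / 2 ≤ prc b X Y T ω}) := by
    rintro ω ⟨e1, e2, T, e3⟩
    exact mem_iUnion.2 ⟨T, ⟨e1, fun t _ => e2 t⟩, e3⟩
  have hsum : Summable fun T : ℕ => V * (2 : ℝ) ^ θ * Real.exp (θ * G) * q ^ T :=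
    (summable_geometric_of_lt_one hq0 hq1).mul_left _
  calc _ ≤ μ (⋃ T, (GG b X Y ε a s T ∩ {ω | 1 / 2 ≤ prc b X Y T ω})) := measure_mono hcov
    _ ≤ ∑' T, μ (GG b X Y ε a s T ∩ {ω | 1 / 2 ≤ prc b X Y T ω}) := measure_iUnion_le _
    _ ≤ ∑' T : ℕ, ENNReal.ofReal (V * (2 : ℝ) ^ θ * Real.exp (θ * G) * q ^ T) :=
        ENNReal.tsum_le_tsum h1
    _ = ENNReal.ofReal (∑' T : ℕ, V * (2 : ℝ) ^ θ * Real.exp (θ * G) * q ^ T) :=
        (ENNReal.ofReal_tsum_of_nonneg (fun T => by positivity) hsum).symm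
    _ = _ := by
        rw [tsum_mul_left, tsum_geometric_of_lt_one hq0 hq1, hq]
        rfl

end Pool.Agent.RelT
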