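import Pool.Agent.RelT.Targets

/-!
# The time bounds are small compared with the lengths of the keys
-/

set_option autoImplicit false

namespace Pool.Agent.RelT

open Pool.Agent.RelM (str)
open Pool.Agent.RelO (lev)

namespace FAST_

lemma lt_two_pow (t : ℕ) : t + 1 < 2 ^ (Nat.log 2 (t + 1) + 1) :=
  Nat.lt_pow_succ_log_self (by norm_num) _

/-- The two inequalities from bounds of the exponents. -/
lemma core {t l T A K L : ℕ} (hL : t + 1 < 2 ^ (L + 1)) (hl : l < 2 ^ (2 * L + 1))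
    (hT : T ≤ 2 ^ A) (h : 2 * (2 * L + 4 + A) ≤ K) :
    l + T < 2 ^ K ∧ 4 * (t + 1) ^ 2 * T ≤ 2 ^ (K / 2) := by
  constructor
  · have e1 : (2 : ℕ) ^ (2 * L + 1) ≤ 2 ^ (K - 1) := Nat.pow_le_pow_right (by norm_num) (by omega)
    have e2 : (2 : ℕ) ^ A ≤ 2 ^ (K - 1) := Nat.pow_le_pow_right (by norm_num) (by omega)
    have e3 : (2 : ℕ) ^ K = 2 ^ (K - 1) + 2 ^ (K - 1) := by
      obtain ⟨m, rfl⟩ : ∃ m, K = m + 1 := ⟨K - 1, by omega⟩
      rw [Nat.add_sub_cancel]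
      ring
    omega
  · have e1 : (t + 1) ^ 2 ≤ (2 ^ (L + 1)) ^ 2 := Nat.pow_le_pow_left hL.le 2
    calc 4 * (t + 1) ^ 2 * T ≤ 4 * (2 ^ (L + 1)) ^ 2 * 2 ^ A := by
          apply Nat.mul_le_mul _ hT
          apply Nat.mul_le_mul (by norm_num) e1
      _ = 2 ^ (2 * L + 4 + A) := by
          rw [show (4 : ℕ) = 2 ^ 2 by norm_num, ← pow_mul, ← pow_add, ← pow_add]
          congr 1
          ring
      _ ≤ 2 ^ (K / 2) := Nat.pow_le_pow_right (by norm_num) (by omega)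

/-- The length of the input. -/
lemma lbd {c t l : ℕ} (ht : 2 ^ c ≤ t) (hl : l ≤ c * (t + 1)) :
    c ≤ Nat.log 2 (t + 1) ∧ l + 2 ≤ 2 ^ (2 * Nat.log 2 (t + 1) + 2) ∧
      l < 2 ^ (2 * Nat.log 2 (t + 1) + 1) := by
  have hc : c ≤ Nat.log 2 (t + 1) := by
    refine Nat.le_log_of_pow_le (by norm_num) ?_
    omega
  have hL := lt_two_pow t
  set L := Nat.log 2 (t + 1) with hLdef
  have h1 : c < 2 ^ c := Nat.lt_two_pow_self
  have h2 : 2 ^ c ≤ 2 ^ L := Nat.pow_le_pow_right (by norm_num) hc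
  have h3 : l < 2 ^ (2 * L + 1) := by
    have e1 : c * (t + 1) ≤ c * 2 ^ (L + 1) := Nat.mul_le_mul_left _ hL.le
    have e2 : c * 2 ^ (L + 1) < 2 ^ L * 2 ^ (L + 1) :=
      Nat.mul_lt_mul_of_pos_right (by omega) (by positivity)
    have e3 : 2 ^ L * 2 ^ (L + 1) = 2 ^ (2 * L + 1) := by
      rw [← pow_add]
      congr 1
      ring
    omega
  refine ⟨hc, ?_, h3⟩
  have e4 : 2 ^ (2 * L + 2) = 2 ^ (2 * L + 1) + 2 ^ (2 * L + 1) := by ring
  have e5 : 2 ≤ 2 ^ (2 * L + 1) := by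
    calc 2 = 2 ^ 1 := rfl
      _ ≤ 2 ^ (2 * L + 1) := Nat.pow_le_pow_right (by norm_num) (by omega)
  omega

end FAST_

open FAST_ in
/-- Polynomial time is small compared with the keys of the odd families. -/
theorem fast1 : T_FAST1 := by
  intro e
  refine ⟨4 * e + 4, fun κ hκ hodd c => ⟨2 ^ c, fun t ht l hl => ?_⟩⟩
  have hlen : (str t).length = Nat.log 2 (t + 1) := Pool.Agent.RelM.strlen t
  have hL := lt_two_pow t
  obtain ⟨_, h2, h3⟩ := lbd ht hl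
  set L := Nat.log 2 (t + 1) with hLdef
  have hlev : lev κ (str t) = (κ + 2) * (L + 2) := by
    unfold lev
    rw [if_neg (by omega), hlen]
  rw [hlev]
  refine core (A := e * (2 * L + 2)) hL h3 ?_ ?_
  · calc (l + 2) ^ e ≤ (2 ^ (2 * L + 2)) ^ e := Nat.pow_le_pow_left h2 e
      _ = 2 ^ (e * (2 * L + 2)) := by rw [← pow_mul, mul_comm]
  · calc 2 * (2 * L + 4 + e * (2 * L + 2)) ≤ (4 * e + 4 + 2) * (L + 2) := by
          nlinarith [Nat.zero_le (e * L), Nat.zero_le e, Nat.zero_le L]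
      _ ≤ (κ + 2) * (L + 2) := Nat.mul_le_mul_right _ (by omega)

open FAST_ in
/-- Quasi-polynomial time is small compared with the keys of the even families. -/
theorem fast2 : T_FAST2 := by
  intro e
  refine ⟨2 * e + 4, fun κ hκ heven c => ⟨2 ^ c, fun t ht l hl => ?_⟩⟩
  have hlen : (str t).length = Nat.log 2 (t + 1) := Pool.Agent.RelM.strlen t
  have hL := lt_two_pow t
  obtain ⟨_, h2, h3⟩ := lbd ht hl
  set L := Nat.log 2 (t + 1) with hLdef
  have hlev : lev κ (str t) = (L + 2) ^ (κ + 2) := by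
    unfold lev
    rw [if_pos heven, hlen]
  rw [hlev]
  have hlog : Nat.log 2 l + 2 ≤ 2 * L + 2 := by
    have h4 : Nat.log 2 l < 2 * L + 1 := Nat.log_lt_of_lt_pow' (by omega) h3
    omega
  have hA : (2 * L + 2) ^ e ≤ (L + 2) ^ (2 * e) := by
    rw [pow_mul]
    exact Nat.pow_le_pow_left (by nlinarith) e
  refine core (A := (2 * L + 2) ^ e) hL h3 ?_ ?_
  · exact Nat.pow_le_pow_right (by norm_num) (Nat.pow_le_pow_left hlog e)
  · have hpos : 1 ≤ (L + 2) ^ (2 * e) := Nat.one_le_pow _ _ (by omega)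
    have hM : 8 * (L + 2) ≤ (L + 2) ^ 4 := by
      have h5 : 2 ^ 3 ≤ (L + 2) ^ 3 := Nat.pow_le_pow_left (by omega) 3
      calc 8 * (L + 2) ≤ (L + 2) ^ 3 * (L + 2) := Nat.mul_le_mul_right _ (by omega)
        _ = (L + 2) ^ 4 := by ring
    have h6 : 2 * (2 * L + 4 + (L + 2) ^ (2 * e)) ≤ (L + 2) ^ (2 * e) * (L + 2) ^ 4 := by
      nlinarith
    calc 2 * (2 * L + 4 + (2 * L + 2) ^ e) ≤ 2 * (2 * L + 4 + (L + 2) ^ (2 * e)) := by omega
      _ ≤ (L + 2) ^ (2 * e) * (L + 2) ^ 4 := h6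
      _ = (L + 2) ^ (2 * e + 4) := by rw [← pow_add]
      _ ≤ (L + 2) ^ (κ + 2) := Nat.pow_le_pow_right (by omega) (by omega)

end Pool.Agent.RelT
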