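import Pool.Agent.RelT.Targets
import Pool.Agent.RelO.MAIN

/-!
# The dimension is at least `a`
-/

set_option autoImplicit false

namespace Pool.Agent.RelT

open MeasureTheory Set
open scoped ENNReal
open Pool.Agent.RelM (Lang Instr NP E1 E2 Approx str)
open Pool.Agent.RelO (lev IsGale IsGaleCover GaleNull1 GaleNull2)
open Pool.Agent.RelS (Z Rl orc Om)

/-- From single machines to all machines. -/
theorem low_of (hNN : T_NONNULL) (hF1 : T_FAST1) (hF2 : T_FAST2) (hNP : T_NPR) (hE1 : T_E1R)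
    (hE2 : T_E2R) : T_LOW := by
  intro Φ
  have a1 : ∀ᵐ ω ∂(coin Φ), ∀ (κ c : ℕ) (q : ℚ) (Pr : List Instr),
      (q : ℝ) * Real.log 2 < Φ.a * Real.log 2 - 1 / ((κ : ℝ) + 1) →
      Fast κ (fun l => (l + 2) ^ c) →
      ¬ ∃ d : ℕ → List Bool → ℝ, IsGaleCover (q : ℝ) d {Rl (zo Φ ω) κ} ∧
        Approx (oo Φ ω) Pr (fun l => (l + 2) ^ c) d := by
    refine ae_all_iff.2 fun κ => ae_all_iff.2 fun c => ae_all_iff.2 fun q =>
      ae_all_iff.2 fun Pr => ?_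
    by_cases h1 : (q : ℝ) * Real.log 2 < Φ.a * Real.log 2 - 1 / ((κ : ℝ) + 1)
    · by_cases h2 : Fast κ (fun l => (l + 2) ^ c)
      · filter_upwards [hNN Φ κ Pr _ q h1 h2] with ω hω _ _
        exact hω
      · exact Filter.Eventually.of_forall fun ω _ h => (h2 h).elim
    · exact Filter.Eventually.of_forall fun ω h => (h1 h).elim
  have a2 : ∀ᵐ ω ∂(coin Φ), ∀ (κ c : ℕ) (q : ℚ) (Pr : List Instr),
      (q : ℝ) * Real.log 2 < Φ.a * Real.log 2 - 1 / ((κ : ℝ) + 1) →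
      Fast κ (fun l => 2 ^ ((Nat.log 2 l + 2) ^ c)) →
      ¬ ∃ d : ℕ → List Bool → ℝ, IsGaleCover (q : ℝ) d {Rl (zo Φ ω) κ} ∧
        Approx (oo Φ ω) Pr (fun l => 2 ^ ((Nat.log 2 l + 2) ^ c)) d := by
    refine ae_all_iff.2 fun κ => ae_all_iff.2 fun c => ae_all_iff.2 fun q =>
      ae_all_iff.2 fun Pr => ?_
    by_cases h1 : (q : ℝ) * Real.log 2 < Φ.a * Real.log 2 - 1 / ((κ : ℝ) + 1)
    · by_cases h2 : Fast κ (fun l => 2 ^ ((Nat.log 2 l + 2) ^ c))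
      · filter_upwards [hNN Φ κ Pr _ q h1 h2] with ω hω _ _
        exact hω
      · exact Filter.Eventually.of_forall fun ω _ h => (h2 h).elim
    · exact Filter.Eventually.of_forall fun ω h => (h1 h).elim
  filter_upwards [a1, a2] with ω h1 h2 s hs
  -- the parameters
  obtain ⟨q, hsq, hqa⟩ := exists_rat_btwn hs
  have hl2 : 0 < Real.log 2 := Real.log_pos (by norm_num)
  have hgap : 0 < (Φ.a - q) * Real.log 2 := mul_pos (by linarith) hl2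
  obtain ⟨n, hn⟩ := exists_nat_one_div_lt hgap
  have hκ : ∀ κ : ℕ, n ≤ κ → (q : ℝ) * Real.log 2 < Φ.a * Real.log 2 - 1 / ((κ : ℝ) + 1) := by
    intro κ hκ
    have h3 : 1 / ((κ : ℝ) + 1) ≤ 1 / ((n : ℝ) + 1) := by
      apply one_div_le_one_div_of_le (by positivity)
      have : (n : ℝ) ≤ κ := by exact_mod_cast hκ
      linarith
    linarith
  have hcov : ∀ (d : ℕ → List Bool → ℝ) (X X' : Set Lang), X' ⊆ X → IsGaleCover s d X →
      IsGaleCover (q : ℝ) d X' := fun d X X' hX hd k =>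
    ⟨Pool.Agent.RelO.MAIN_.gale_mono hsq.le (hd k).1, (hd k).2.1,
      fun A hA => (hd k).2.2 A (hX hA)⟩
  constructor
  · rintro ⟨d, hd, Pr, c, hA⟩
    obtain ⟨κ₀, hκ₀⟩ := hF1 c
    obtain ⟨κ, h3, h4, h5⟩ : ∃ κ, n ≤ κ ∧ κ₀ ≤ κ ∧ κ % 2 = 1 :=
      ⟨2 * (n + κ₀) + 1, by omega, by omega, by omega⟩
    refine h1 κ c q Pr (hκ κ h3) (hκ₀ κ h4 h5) ⟨d, hcov d _ _ ?_ hd, hA⟩
    rintro A rfl
    exact ⟨hNP _ _ _, hE1 _ _ _ h5⟩
  · rintro ⟨d, hd, Pr, c, hA⟩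
    obtain ⟨κ₀, hκ₀⟩ := hF2 c
    obtain ⟨κ, h3, h4, h5⟩ : ∃ κ, n ≤ κ ∧ κ₀ ≤ κ ∧ κ % 2 = 0 :=
      ⟨2 * (n + κ₀), by omega, by omega, by omega⟩
    refine h2 κ c q Pr (hκ κ h3) (hκ₀ κ h4 h5) ⟨d, hcov d _ _ ?_ hd, hA⟩
    rintro A rfl
    exact ⟨hNP _ _ _, hE2 _ _ _ h5⟩

end Pool.Agent.RelT
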