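import Pool.Agent.RelT.Core

/-!
# The targets of the jobs
-/

set_option autoImplicit false

namespace Pool.Agent.RelT

open MeasureTheory Set
open scoped ENNReal
open Pool.Agent.RelM (Lang Instr Cfg step run Halts Decides E1 E2 NP pair triple binVal outVal
  Approx IsDensity str pre IsNullCover Null1 Null2 wq sq0 sq1 Asks hq code qb)
open Pool.Agent.RelO (lev IsGale IsGaleCover GaleNull1 GaleNull2 st)
open Pool.Agent.RelS (Z Rl orcV orc acc mc Idx Om bern bern_prob Dep mixP gf PF Low)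

/-! ## Parameters (job PAR) -/

def T_PAR : Prop := ∀ a : ℝ, 0 ≤ a → a ≤ 1 → ∃ Φ : Par, Φ.a = a

/-! ## Stages and histories (jobs NNT, DENT) -/

def T_NNMONO : Prop := ∀ Φ : Par, StrictMono (nn Φ)

def T_NNGE : Prop := ∀ (Φ : Par) (j : ℕ), j + 2 ≤ nn Φ j

/-- The stages are late enough for the intensities. -/
def T_NNB : Prop := ∀ (Φ : Par) (j : ℕ), 2 * Φ.B + 2 ≤ nn Φ j

def T_JJ : Prop := ∀ (Φ : Par) (m : ℕ), m < nn Φ (jj Φ m) ∧ ∀ j, j < jj Φ m → nn Φ j ≤ m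

def T_OLDFIN : Prop := ∀ (Φ : Par) (j : ℕ), (Old Φ j).Finite

/-- The history before stage `j + 1` depends only on the coins that are old at stage `j`. -/
def T_HSDEP : Prop := ∀ (Φ : Par) (j : ℕ) (ω ω' : Om), (∀ a ∈ Old Φ j, ω a = ω' a) →
  hs Φ ω (j + 1) = hs Φ ω' (j + 1)

/-- The options and the probabilities before stage `m` are final. -/
def T_HSVAL : Prop := ∀ (Φ : Par) (ω : Om) (m : ℕ),
  (∀ j, j ≤ m → (hs Φ ω m).1 j = (hf Φ ω).1 j) ∧ ∀ j, j < m → (hs Φ ω m).2 j = (hf Φ ω).2 j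

/-- Options are less than `K`. -/
def T_OPT : Prop := ∀ (Φ : Par) (ω : Om) (m j : ℕ), (hs Φ ω m).1 j < Φ.K

/-- The bits of the supergales depend only on the stages that can be read. -/
def T_BLOC : Prop := ∀ (Φ : Par) (η η' : ℕ → ℕ → ℝ) (u : List Bool),
  (∀ j, 2 ^ nn Φ j ≤ u.length → η j = η' j) → bitsOf Φ η u = bitsOf Φ η' u

/-! ## Finding a hidden key (job HIT) -/

/-- The coins visible to a gambler who bets on the word number `t` of `Rl z κ`. -/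
def Vis (Φ : Par) (κ t : ℕ) : Set Idx :=
  {a | a ∈ Old Φ (bl Φ κ (str t)) ∧ ¬ (a.1 = κ ∧ ∃ t', t ≤ t' ∧ a.2.1 = str t')}

/-- A machine that runs for `τ` steps on an input that depends only on the visible coins finds no
hidden key. -/
def T_HIT : Prop := ∀ (Φ : Par) (κ t : ℕ) (Pr : List Instr) (X : Om → List Bool) (τ : ℕ),
  nn Φ 0 ≤ lev κ (str t) → Dep (Vis Φ κ t) X →
  (∀ ω, (X ω).length + τ < 2 ^ lev κ (str t)) →
  coin Φ {ω | ∃ s ≤ τ, run (oo Φ ω) Pr (X ω) s ≠ run (ov Φ κ t ω) Pr (X ω) s}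
    ≤ τ * (2⁻¹ : ℝ≥0∞) ^ (lev κ (str t) / 2)

/-! ## The probability of a bit (job FAIR) -/

/-- Given the visible coins, the word number `t` has no key with the probability `rt Φ κ t`. -/
def T_FAIR : Prop := ∀ (Φ : Par) (κ t : ℕ) (H : Om → ℝ≥0∞),
  nn Φ 0 ≤ lev κ (str t) → Measurable H → Dep (Vis Φ κ t) H →
  ∫⁻ ω in {ω | Rl (zo Φ ω) κ (str t) = false}, H ω ∂(coin Φ) =
      ∫⁻ ω, ENNReal.ofReal (rt Φ κ t ω) * H ω ∂(coin Φ) ∧
    ∫⁻ ω in {ω | Rl (zo Φ ω) κ (str t) = true}, H ω ∂(coin Φ) =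
      ∫⁻ ω, ENNReal.ofReal (1 - rt Φ κ t ω) * H ω ∂(coin Φ)

/-! ## The mean entropy (job CNT) -/

def T_CNT : Prop := ∀ (Φ : Par) (κ : ℕ) (ε : ℝ), 0 < ε → ∃ C : ℝ, ∀ (t : ℕ) (ω : Om),
  (Φ.a * Real.log 2 - 1 / ((κ : ℝ) + 1) - ε) * t - C ≤
    ∑ t' ∈ Finset.range t, Real.binEntropy (rt Φ κ t' ω)

/-! ## The hidden languages are not covered (jobs NONNULL, FAST) -/

/-- The time bound `T` is small compared with the lengths of the keys of the family `κ`. -/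
def Fast (κ : ℕ) (T : ℕ → ℕ) : Prop := ∀ c : ℕ, ∃ t₀ : ℕ, ∀ t, t₀ ≤ t → ∀ l, l ≤ c * (t + 1) →
  l + T l < 2 ^ lev κ (str t) ∧ 4 * (t + 1) ^ 2 * T l ≤ 2 ^ (lev κ (str t) / 2)

def T_NONNULL : Prop := ∀ (Φ : Par) (κ : ℕ) (Pr : List Instr) (T : ℕ → ℕ) (s : ℝ),
  s * Real.log 2 < Φ.a * Real.log 2 - 1 / ((κ : ℝ) + 1) → Fast κ T →
  ∀ᵐ ω ∂(coin Φ), ¬ ∃ d : ℕ → List Bool → ℝ,
    IsGaleCover s d {Rl (zo Φ ω) κ} ∧ Approx (oo Φ ω) Pr T d

/-- Polynomial time is small compared with the keys of the odd families. -/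
def T_FAST1 : Prop := ∀ c : ℕ, ∃ κ₀, ∀ κ, κ₀ ≤ κ → κ % 2 = 1 → Fast κ (fun l => (l + 2) ^ c)

/-- Quasi-polynomial time is small compared with the keys of the even families. -/
def T_FAST2 : Prop := ∀ c : ℕ, ∃ κ₀, ∀ κ, κ₀ ≤ κ → κ % 2 = 0 →
  Fast κ (fun l => 2 ^ ((Nat.log 2 l + 2) ^ c))

/-! ## The hidden languages are in the classes (jobs NPR, ER) -/

def T_NPR : Prop := ∀ (G : Lang) (z : Z) (κ : ℕ), Rl z κ ∈ NP (orc G z)

def T_E1R : Prop := ∀ (G : Lang) (z : Z) (κ : ℕ), κ % 2 = 1 → Rl z κ ∈ E1 (orc G z)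

def T_E2R : Prop := ∀ (G : Lang) (z : Z) (κ : ℕ), κ % 2 = 0 → Rl z κ ∈ E2 (orc G z)

/-! ## The lower half (job LOW) -/

def T_LOW : Prop := ∀ Φ : Par, ∀ᵐ ω ∂(coin Φ), ∀ s : ℝ, s < Φ.a →
  ¬ GaleNull1 s (oo Φ ω) (NP (oo Φ ω) ∩ E1 (oo Φ ω)) ∧
  ¬ GaleNull2 s (oo Φ ω) (NP (oo Φ ω) ∩ E2 (oo Φ ω))

/-! ## A machine for the shifted sequence (job SHIFT) -/

/-- If a sequence is computable, so is the sequence without its first `l` members. -/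
def T_SHIFT : Prop := ∀ (O : Lang) (P : List Instr) (c l : ℕ) (d : ℕ → List Bool → ℝ),
  Approx O P (fun n => (n + 2) ^ c) d →
  ∃ (P' : List Instr) (c' : ℕ), Approx O P' (fun n => (n + 2) ^ c') fun k => d (k + l)

/-! ## The covering side -/

/-- The answer of the machine of stage `j` on a word of stage `j` depends only on the coins that
are old at stage `j + 1`, on the options up to stage `j + 1` and on the probabilities before
stage `j` (job ACC). -/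
def T_ACC : Prop := ∀ (Φ : Par) (j t : ℕ) (h h' : Hist) (ω ω' : Om), t ∈ Wd Φ j →
  (∀ i, i ≤ j + 1 → h.1 i = h'.1 i) → (∀ i, i ≤ j + 1 → h.1 i < Φ.K) →
  (∀ i, i < j → h.2 i = h'.2 i) → (∀ a ∈ Old Φ (j + 1), ω a = ω' a) →
  (ans Φ j h ω t ↔ ans Φ j h' ω' t)

/-- The mean entropy of an answer (job UNI). -/
def T_UNI : Prop := ∀ (Φ : Par) (j t : ℕ) (h : Hist) (ω : Om), t ∈ Wd Φ j →
  (∀ i, i ≤ j → h.1 i < Φ.K) →
  ∑ i ∈ Finset.range Φ.K, Φ.pv i * Real.binEntropy (pa Φ j h ω t i) ≤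
    Φ.a * Real.log 2 + 1 / ((j : ℝ) + 1)

/-- The best option (job STG). -/
def T_STG : Prop := ∀ (Φ : Par) (j : ℕ) (ω : Om),
  best Φ j (hs Φ ω j) ω < Φ.K ∧
  He Φ j (hs Φ ω j) ω (best Φ j (hs Φ ω j) ω) ≤
    (Φ.a * Real.log 2 + 1 / ((j : ℝ) + 1)) * 2 ^ (nn Φ j + j)

/-- The language of the machine of stage `j`. -/
noncomputable def Lj (Φ : Par) (j : ℕ) (ω : Om) : Lang := by
  classical exact fun x => decide (acc (oo Φ ω) (mc j) x)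

/-- The probability given to the language of the machine of stage `j` at stage `j` is large
infinitely often (job IO). -/
def T_IO : Prop := ∀ (Φ : Par) (e : ℕ) (δ : ℝ), 0 < δ → ∀ᵐ ω ∂(coin Φ), ∀ m : ℕ, ∃ j, m ≤ j ∧
  st j = e ∧
  Real.exp (-((Φ.a * Real.log 2 + δ) * 2 ^ (nn Φ j + j) + 2 ^ nn Φ j)) ≤
    Pw Φ (hf Φ ω).2 j (pre (Lj Φ j ω) (2 ^ (nn Φ j + j)))

/-- The upper half (job UPP). -/
def T_UPP : Prop := ∀ Φ : Par, ∀ᵐ ω ∂(coin Φ), ∀ s : ℝ, Φ.a < s →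
  GaleNull1 s (oo Φ ω) (NP (oo Φ ω)) ∧ GaleNull2 s (oo Φ ω) (NP (oo Φ ω))

/-- The theorem. -/
def T_MAIN : Prop := ∀ a : ℝ, 0 ≤ a → a ≤ 1 → ∃ O : Lang,
  (∀ s : ℝ, a < s → GaleNull1 s O (NP O) ∧ GaleNull2 s O (NP O)) ∧
  (∀ s : ℝ, s < a → ¬ GaleNull1 s O (NP O ∩ E1 O) ∧ ¬ GaleNull2 s O (NP O ∩ E2 O))

end Pool.Agent.RelT
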