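import Pool.Agent.RelM.NPR
import Pool.Agent.RelM.E2R
import Pool.Agent.RelM.LOC
import Pool.Agent.RelO.LEV
import Pool.Agent.RelT.Targets

/-!
# The languages `Rl z κ` are in `NP` and in `E` or `E_2`
-/

set_option autoImplicit false

namespace Pool.Agent.RelT

open Pool.Agent.RelM (Lang Instr Cfg step run Halts Decides E1 E2 NP pair triple
  str pre wq sq0 sq1 Asks hq eprog eprog_run eprog_length)
open Pool.Agent.RelO (lev levpow)
open Pool.Agent.RelS (Z Rl orcV orc owq osq0 osq1)

theorem npr : T_NPR := by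
  intro G z κ
  refine ⟨Pool.Agent.RelM.vprog κ, κ + 2, κ + 5, ?_⟩
  intro x
  have htime : κ + 5 ≤ (x.length + 2) ^ (κ + 5) :=
    le_trans (le_of_lt Nat.lt_two_pow_self) (Nat.pow_le_pow_left (by omega) _)
  have hhalt : ∀ y, Halts (orc G z) (Pool.Agent.RelM.vprog κ) (pair x y) (κ + 5) := by
    intro y
    unfold Halts
    rw [Pool.Agent.RelM.vprog_length]
    by_cases h : orc G z (wq κ x y) = true
    · exact (Pool.Agent.RelM.vprog_run_yes _ κ x y h).1.ge
    · exact (Pool.Agent.RelM.vprog_run_no _ κ x y h).1.ge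
  have hrun : ∀ y, run (orc G z) (Pool.Agent.RelM.vprog κ) (pair x y)
      ((x.length + 2) ^ (κ + 5)) =
      run (orc G z) (Pool.Agent.RelM.vprog κ) (pair x y) (κ + 5) :=
    fun y => Pool.Agent.RelM.stay _ _ _ _ _ (hhalt y) htime
  have hyes : ∀ y, (run (orc G z) (Pool.Agent.RelM.vprog κ) (pair x y) (κ + 5)).st 1 = [true] ↔
      orc G z (wq κ x y) = true := by
    intro y
    constructor
    · intro h
      by_contra hno
      rw [(Pool.Agent.RelM.vprog_run_no _ κ x y hno).2] at h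
      simp at h
    · intro h
      exact (Pool.Agent.RelM.vprog_run_yes _ κ x y h).2
  constructor
  · intro y _
    have := hhalt y
    unfold Halts at this ⊢
    rw [hrun y]
    exact this
  · have hR : Rl z κ x = true ↔ ∃ y : List Bool, y.length = lev κ x ∧ z κ x y = true := by
      simp [Rl]
    rw [hR]
    constructor
    · rintro ⟨y, hy1, hy2⟩
      refine ⟨y, ?_, ?_⟩
      · rw [hy1]
        exact levpow κ x
      · rw [hrun, hyes]
        exact (owq _ G z κ x _).2 ⟨trivial, hy1, hy2⟩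
    · rintro ⟨y, -, hy⟩
      rw [hrun, hyes] at hy
      exact ⟨y, ((owq _ G z κ x y).1 hy).2⟩

namespace ER_

/-- The program decides the hidden language in time `2 ^ (lev κ x + κ + 5)`. -/
lemma decides (G : Lang) (z : Z) (κ : ℕ) (T : ℕ → ℕ)
    (hT : ∀ x : List Bool, 2 ^ (lev κ x + κ + 5) ≤ T x.length) :
    Decides (orc G z) (eprog κ) (Rl z κ) T := by
  intro x
  set O := orc G z with hO
  set M := 2 ^ lev κ x with hM
  have hrun := eprog_run O κ M x
    (fun m hm h => by
      have := (osq0 _ G z κ x m).1 h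
      omega) ((osq0 _ G z κ x M).2 le_rfl)
  have hhalt : Halts O (eprog κ) x (7 * M + κ + 12) := by
    unfold Halts
    rw [hrun, eprog_length]
  have htime : 7 * M + κ + 12 ≤ T x.length := by
    refine le_trans ?_ (hT x)
    have h1 : κ + 12 ≤ 2 ^ (κ + 4) := by
      have : κ < 2 ^ κ := Nat.lt_two_pow_self
      have h2 : 2 ^ (κ + 4) = 16 * 2 ^ κ := by rw [pow_add]; ring
      omega
    have h2 : 2 ^ (κ + 4) ≤ 2 ^ (lev κ x + κ + 4) := Nat.pow_le_pow_right (by norm_num) (by omega)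
    have h3 : 7 * M ≤ 2 ^ (lev κ x + κ + 4) := by
      have : 2 ^ (lev κ x + κ + 4) = 2 ^ lev κ x * (16 * 2 ^ κ) := by
        rw [add_assoc, pow_add, pow_add]; ring
      rw [this, hM, mul_comm]
      have : 1 ≤ 2 ^ κ := Nat.one_le_two_pow
      exact Nat.mul_le_mul_left _ (by omega)
    have : 2 ^ (lev κ x + κ + 5) = 2 ^ (lev κ x + κ + 4) + 2 ^ (lev κ x + κ + 4) := by
      rw [pow_succ]; ring
    omega
  have hrun' : run O (eprog κ) x (T x.length) =
      run O (eprog κ) x (7 * M + κ + 12) := Pool.Agent.RelM.stay _ _ _ _ _ hhalt htime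
  constructor
  · unfold Halts at hhalt ⊢
    rw [hrun']
    exact hhalt
  · rw [hrun', hrun]
    simp only [Function.update_self, List.cons.injEq, and_true]
    rw [Bool.eq_iff_iff]
    rw [hO, orc, osq1 _ G z κ x M]
    simp [hM]

end ER_

open ER_

theorem e1r : T_E1R := by
  intro G z κ hκ
  obtain ⟨c, rfl⟩ : ∃ c, κ = 2 * c + 1 := ⟨κ / 2, by omega⟩
  refine ⟨eprog (2 * c + 1), 6 * c + 12, decides G z _ _ ?_⟩
  intro x
  refine Nat.pow_le_pow_right (by norm_num) ?_
  have h : lev (2 * c + 1) x = (2 * c + 1 + 2) * (x.length + 2) := by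
    unfold lev
    rw [if_neg (by omega)]
  rw [h]
  nlinarith

theorem e2r : T_E2R := by
  intro G z κ hκ
  obtain ⟨c, rfl⟩ : ∃ c, κ = 2 * c := ⟨κ / 2, by omega⟩
  refine ⟨eprog (2 * c), 2 * c + 6, decides G z _ _ ?_⟩
  intro x
  refine Nat.pow_le_pow_right (by norm_num) ?_
  have h : lev (2 * c) x = (x.length + 2) ^ (2 * c + 2) := by
    unfold lev
    rw [if_pos (by omega)]
  rw [h]
  have h5 : (x.length + 2) ^ (2 * c + 6) = (x.length + 2) ^ (2 * c + 2) * (x.length + 2) ^ 4 := by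
    rw [← pow_add]
  have h6 : 16 ≤ (x.length + 2) ^ 4 := by
    calc 16 = 2 ^ 4 := by norm_num
      _ ≤ _ := Nat.pow_le_pow_left (by omega) _
  have h7 : 2 * c + 2 < (x.length + 2) ^ (2 * c + 2) :=
    lt_of_lt_of_le Nat.lt_two_pow_self (Nat.pow_le_pow_left (by omega) _)
  have h8 : 0 < (x.length + 2) ^ (2 * c + 2) := by positivity
  rw [h5]
  nlinarith

end Pool.Agent.RelT
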