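import Pool.Agent.RelT.Targets

/-!
# Parameters for every dimension
-/

set_option autoImplicit false

namespace Pool.Agent.RelT

open Pool.Agent.RelS

namespace PAR_

theorem wt_one {D : Type} [Fintype D] (V : D → Bool) :
    wt (fun _ : D => (1 : ℝ)) V = if V = (fun _ => false) then 1 else 0 := by
  classical
  unfold wt
  by_cases h : V = fun _ => false
  · rw [if_pos h]
    refine Finset.prod_eq_one fun d _ => ?_
    rw [h]
    simp
  · rw [if_neg h]
    have : ∃ d, V d = true := by
      by_contra hcon
      push Not at hcon
      apply h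
      funext d
      simpa using hcon d
    obtain ⟨d, hd⟩ := this
    refine Finset.prod_eq_zero (Finset.mem_univ d) ?_
    rw [hd]
    simp

theorem PF_one {D : Type} [Fintype D] (A : Set (D → Bool)) :
    PF (fun _ : D => (1 : ℝ)) A = 0 ∨ PF (fun _ : D => (1 : ℝ)) A = 1 := by
  classical
  rw [PF_def]
  simp only [wt_one]
  by_cases h : (fun _ => false : D → Bool) ∈ A
  · right
    rw [Finset.sum_eq_single (fun _ => false : D → Bool)]
    · simp [h]
    · intro V _ hV
      simp [hV]
    · intro h'
      exact absurd (Finset.mem_univ _) h'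
  · left
    refine Finset.sum_eq_zero fun V _ => ?_
    by_cases hV : V = fun _ => false
    · rw [hV]; simp [h]
    · simp [hV]

end PAR_

open PAR_

theorem par : T_PAR := by
  intro a h0 h1
  have hl : 0 < Real.log 2 := Real.log_pos (by norm_num)
  rcases h0.eq_or_lt with rfl | ha
  · refine ⟨{
      a := 0
      K := 1
      lam := fun _ => 0
      dm := fun _ => 1
      mul := fun _ _ => 0
      B := 0
      pv := fun _ => 1
      a0 := le_rfl
      a1 := h1
      K1 := le_rfl
      lam0 := fun _ => le_rfl
      dm1 := fun _ => le_rfl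
      mul0 := fun _ _ => le_rfl
      bd := by simp
      pv0 := fun _ => zero_le_one
      pv1 := by simp
      cov := ?_
      hid := ?_ }, rfl⟩
    · intro D _ e A _ _
      simp only [zero_mul, neg_zero, Real.exp_zero, Finset.range_one, Finset.sum_singleton,
        one_mul]
      rcases PF_one A with h | h <;> rw [h] <;> simp
    · intro κ i _
      simp only [zero_mul, Finset.range_one, Finset.sum_singleton, gf_zero, Nat.cast_one, mul_one]
      have : (0 : ℝ) < 1 / ((κ : ℝ) + 1) := by positivity
      linarith
  · obtain ⟨K, τ, hK, hτ, ⟨pv, pv0, pv1, hpv⟩, hrat⟩ := game ha h1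
    choose D m hD hm hsum using fun κ : ℕ => hrat (1 / ((κ : ℝ) + 1)) (by positivity)
    refine ⟨{
      a := a
      K := K
      lam := fun i => Real.exp (i * τ)
      dm := D
      mul := m
      B := ⌈Real.exp (K * τ) * Real.log 2⌉₊
      pv := fun i => if h : i < K then pv ⟨i, h⟩ else 0
      a0 := h0
      a1 := h1
      K1 := hK
      lam0 := fun _ => (Real.exp_pos _).le
      dm1 := hD
      mul0 := fun κ c => (hm κ c).1
      bd := ?_
      pv0 := ?_
      pv1 := ?_
      cov := ?_
      hid := ?_ }, rfl⟩
    · intro i κ c hi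
      refine le_trans ?_ (Nat.le_ceil _)
      refine mul_le_mul (Real.exp_le_exp.2 (mul_le_mul_of_nonneg_right ?_ hτ)) (hm κ c).2
        (hm κ c).1 (Real.exp_pos _).le
      exact_mod_cast hi.le
    · intro i
      split_ifs
      · exact pv0 _
      · exact le_rfl
    · rw [Finset.sum_range, ← pv1]
      refine Finset.sum_congr rfl fun i _ => ?_
      rw [dif_pos i.2]
    · intro D' _ e A he hA
      rw [Finset.sum_range]
      refine le_trans (le_of_eq (Finset.sum_congr rfl fun i _ => ?_))
        (low_bound hK hτ pv0 hpv he hA)
      rw [dif_pos i.2]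
    · intro κ i hi
      exact hsum κ ⟨i, hi⟩

end Pool.Agent.RelT
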