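import Pool.Agent.RelT.UPP
import Pool.Agent.RelT.LOW
import Pool.Agent.RelT.PAR
import Pool.Agent.RelT.FAST
import Pool.Agent.RelT.NPR

/-!
# The theorem
-/

set_option autoImplicit false

namespace Pool.Agent.RelT

open MeasureTheory Set
open scoped ENNReal
open Pool.Agent.RelM (Lang Instr NP E1 E2 Approx IsNullCover Null1 Null2 str)
open Pool.Agent.RelO (lev IsGale IsGaleCover GaleNull1 GaleNull2)
open Pool.Agent.RelS (Z Rl orc Om)

theorem main_of (hNN : T_NONNULL) : T_MAIN := by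
  intro a h0 h1
  obtain ⟨Φ, rfl⟩ := par a h0 h1
  obtain ⟨ω, h2, h3⟩ := ((upp Φ).and (low_of hNN fast1 fast2 npr e1r e2r Φ)).exists
  exact ⟨oo Φ ω, h2, h3⟩

/-- A set with a null cover by `1`-supergales is null. -/
theorem null_of_gale {O : Lang} {X : Set Lang} (h : GaleNull1 1 O X ∧ GaleNull2 1 O X) :
    Null1 O X ∧ Null2 O X := by
  have key : ∀ d : ℕ → List Bool → ℝ, IsGaleCover 1 d X → IsNullCover d X := by
    intro d hd k
    refine ⟨⟨(hd k).1.nonneg, fun w => ?_⟩, (hd k).2⟩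
    have := (hd k).1.le w
    rw [Real.rpow_one] at this
    linarith
  obtain ⟨⟨d, hd, h1⟩, ⟨d', hd', h2⟩⟩ := h
  exact ⟨⟨d, key d hd, h1⟩, ⟨d', key d' hd', h2⟩⟩

/-- A null set has null covers by `s`-supergales for `s > 1`. -/
theorem gale_of_null {O : Lang} {X : Set Lang} (h : Null1 O X ∧ Null2 O X) {s : ℝ} (hs : 1 < s) :
    GaleNull1 s O X ∧ GaleNull2 s O X := by
  have key : ∀ d : ℕ → List Bool → ℝ, IsNullCover d X → IsGaleCover s d X := by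
    intro d hd k
    refine ⟨⟨(hd k).1.nonneg, fun w => ?_⟩, (hd k).2⟩
    have h1 := (hd k).1.avg w
    have h2 := (hd k).1.nonneg w
    have h3 : (2 : ℝ) ≤ 2 ^ s := by
      calc (2 : ℝ) = 2 ^ (1 : ℝ) := (Real.rpow_one 2).symm
        _ ≤ 2 ^ s := Real.rpow_le_rpow_of_exponent_le (by norm_num) hs.le
    nlinarith
  obtain ⟨⟨d, hd, h1⟩, ⟨d', hd', h2⟩⟩ := h
  exact ⟨⟨d, key d hd, h1⟩, ⟨d', key d' hd', h2⟩⟩

/-- Null covers of larger sets. -/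
theorem null_mono {O : Lang} {X X' : Set Lang} (hX : X' ⊆ X) (h : Null1 O X ∧ Null2 O X) :
    Null1 O X' ∧ Null2 O X' := by
  have key : ∀ d : ℕ → List Bool → ℝ, IsNullCover d X → IsNullCover d X' := fun d hd k =>
    ⟨(hd k).1, (hd k).2.1, fun A hA => (hd k).2.2 A (hX hA)⟩
  obtain ⟨⟨d, hd, h1⟩, ⟨d', hd', h2⟩⟩ := h
  exact ⟨⟨d, key d hd, h1⟩, ⟨d', key d' hd', h2⟩⟩

/-- The second part of the theorem, from the first part. -/
theorem second_of (hNN : T_NONNULL) (hone : ∃ O : Lang, Null1 O (NP O) ∧ Null2 O (NP O) ∧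
      (∀ s : ℝ, s < 1 → ¬ GaleNull1 s O (NP O ∩ E1 O) ∧ ¬ GaleNull2 s O (NP O ∩ E2 O)))
    (a : ℝ) (h0 : 0 ≤ a) (h1 : a ≤ 1) : ∃ O : Lang, Null1 O (NP O) ∧ Null2 O (NP O) ∧
      (∀ s : ℝ, a < s → GaleNull1 s O (NP O) ∧ GaleNull2 s O (NP O)) ∧
      (∀ s : ℝ, s < a → ¬ GaleNull1 s O (NP O ∩ E1 O) ∧ ¬ GaleNull2 s O (NP O ∩ E2 O)) := by
  rcases h1.eq_or_lt with rfl | h1'
  · obtain ⟨O, h2, h3, h4⟩ := hone
    exact ⟨O, h2, h3, fun s hs => gale_of_null ⟨h2, h3⟩ hs, h4⟩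
  · obtain ⟨O, h2, h3⟩ := main_of hNN a h0 h1
    obtain ⟨h4, h5⟩ := null_of_gale (h2 1 h1')
    exact ⟨O, h4, h5, h2, h3⟩

end Pool.Agent.RelT
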