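import Mathlib
import Pool.Agent.RelO.Core

/-!
# The maximal inequality for bits with given conditional probabilities (job CROSS)
-/

set_option autoImplicit false

namespace Pool.Agent.RelT

open MeasureTheory Set
open scoped ENNReal
open Pool.Agent.RelO (proc)

namespace CROSS_

/-- The mean value after the next bit, on an invariant event. -/
lemma bet {Ω : Type} [MeasurableSpace Ω] (μ : Measure Ω) (b : Ω → Bool) (Z : Bool → Ω → ℝ)
    (p : Ω → ℝ) (r : Ω → Ω → Prop) (hb : Measurable b)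
    (hZ : ∀ i, Measurable (Z i)) (hp : Measurable p) (hZr : ∀ i ω ω', r ω ω' → Z i ω = Z i ω')
    (p0 : ∀ ω, 0 ≤ p ω) (p1 : ∀ ω, p ω ≤ 1)
    (hi : ∀ H : Ω → ℝ≥0∞, Measurable H → (∀ ω ω', r ω ω' → H ω = H ω') →
      ∫⁻ ω in {ω | b ω = false}, H ω ∂μ ≤ ∫⁻ ω, ENNReal.ofReal (p ω) * H ω ∂μ ∧
      ∫⁻ ω in {ω | b ω = true}, H ω ∂μ ≤ ∫⁻ ω, ENNReal.ofReal (1 - p ω) * H ω ∂μ)
    (hZ0 : ∀ i ω, 0 ≤ Z i ω) (B : Set Ω) (hB : MeasurableSet B)
    (hBr : ∀ ω ω', r ω ω' → (ω ∈ B ↔ ω' ∈ B)) :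
    ∫⁻ ω in B, ENNReal.ofReal (Z (b ω) ω) ∂μ ≤
      ∫⁻ ω in B, ENNReal.ofReal (p ω * Z false ω + (1 - p ω) * Z true ω) ∂μ := by
  classical
  have hbi : ∀ i, MeasurableSet {ω | b ω = i} := fun i => hb (measurableSet_singleton i)
  obtain ⟨H, hH⟩ : ∃ H : Bool → Ω → ℝ≥0∞,
      ∀ i, H i = B.indicator fun ω => ENNReal.ofReal (Z i ω) := ⟨_, fun _ => rfl⟩
  have hHm : ∀ i, Measurable (H i) := by
    intro i
    rw [hH]
    exact (hZ i).ennreal_ofReal.indicator hB
  have hHr : ∀ i ω ω', r ω ω' → H i ω = H i ω' := by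
    intro i ω ω' h
    rw [hH]
    by_cases hω : ω ∈ B
    · rw [indicator_of_mem hω, indicator_of_mem ((hBr ω ω' h).1 hω), hZr i ω ω' h]
    · rw [indicator_of_notMem hω, indicator_of_notMem fun h' => hω ((hBr ω ω' h).2 h')]
  have h1 := (hi (H false) (hHm false) (hHr false)).1
  have h2 := (hi (H true) (hHm true) (hHr true)).2
  have h3 : ∫⁻ ω in B, ENNReal.ofReal (Z (b ω) ω) ∂μ =
      (∫⁻ ω in {ω | b ω = false}, H false ω ∂μ) + ∫⁻ ω in {ω | b ω = true}, H true ω ∂μ := by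
    rw [← lintegral_indicator (hbi false), ← lintegral_indicator (hbi true),
      ← lintegral_indicator hB, ← lintegral_add_left ((hHm false).indicator (hbi false))]
    refine lintegral_congr fun ω => ?_
    rw [hH, hH]
    by_cases h4 : ω ∈ B <;> cases h5 : b ω <;> simp [indicator, h4, h5]
  rw [h3]
  refine (add_le_add h1 h2).trans ?_
  have hpm : Measurable fun ω => ENNReal.ofReal (p ω) * H false ω :=
    hp.ennreal_ofReal.mul (hHm false)
  rw [← lintegral_add_left hpm, ← lintegral_indicator hB]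
  refine lintegral_mono fun ω => ?_
  rw [hH, hH]
  by_cases h4 : ω ∈ B
  · rw [indicator_of_mem h4, indicator_of_mem h4, indicator_of_mem h4,
      ← ENNReal.ofReal_mul (p0 ω), ← ENNReal.ofReal_mul (by linarith [p1 ω]),
      ← ENNReal.ofReal_add (mul_nonneg (p0 ω) (hZ0 _ _))
        (mul_nonneg (by linarith [p1 ω]) (hZ0 _ _))]
  · rw [indicator_of_notMem h4, indicator_of_notMem h4]
    simp

end CROSS_

open CROSS_ in
/-- The maximal inequality. -/
theorem cross {Ω : Type} [MeasurableSpace Ω] (μ : Measure Ω) [IsProbabilityMeasure μ]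
    (b : ℕ → Ω → Bool) (X : ℕ → Bool → Ω → ℝ) (Y : Ω → ℝ) (p : ℕ → Ω → ℝ)
    (r : ℕ → Ω → Ω → Prop) (ε : ℕ → ℝ) (a : ℝ)
    (hb : ∀ t, Measurable (b t)) (hX : ∀ t i, Measurable (X t i)) (hY : Measurable Y)
    (hp : ∀ t, Measurable (p t))
    (hYf : ∀ t ω ω', r t ω ω' → Y ω = Y ω')
    (hbf : ∀ s t, s < t → ∀ ω ω', r t ω ω' → b s ω = b s ω')
    (hXf : ∀ s t, s ≤ t → ∀ i ω ω', r t ω ω' → X s i ω = X s i ω')
    (hpf : ∀ s t, s ≤ t → ∀ ω ω', r t ω ω' → p s ω = p s ω')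
    (p0 : ∀ t ω, 0 ≤ p t ω) (p1 : ∀ t ω, p t ω ≤ 1)
    (hφ : ∀ t (H : Ω → ℝ≥0∞), Measurable H → (∀ ω ω', r t ω ω' → H ω = H ω') →
      ∫⁻ ω in {ω | b t ω = false}, H ω ∂μ ≤ ∫⁻ ω, ENNReal.ofReal (p t ω) * H ω ∂μ ∧
      ∫⁻ ω in {ω | b t ω = true}, H ω ∂μ ≤ ∫⁻ ω, ENNReal.ofReal (1 - p t ω) * H ω ∂μ)
    (hX0 : ∀ t i ω, 0 ≤ X t i ω) (hY0 : ∀ ω, 0 ≤ Y ω) (hε : ∀ t, 0 ≤ ε t) (hs : Summable ε)
    (ha : 0 ≤ a) :
    μ {ω | Y ω ≤ a ∧
        (∀ t, p t ω * X t false ω + (1 - p t ω) * X t true ω ≤ proc b X Y t ω + ε t) ∧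
        ∃ t, 1 / 2 ≤ proc b X Y t ω} ≤ ENNReal.ofReal (2 * (a + ∑' t, ε t)) := by
  obtain ⟨D, hD⟩ : ∃ D : ℕ → Ω → ℝ, D = proc b X Y := ⟨_, rfl⟩
  have D0 : D 0 = Y := by rw [hD]; rfl
  have DS : ∀ t ω, D (t + 1) ω = X t (b t ω) ω := by intro t ω; rw [hD]; rfl
  rw [← hD]
  have Dm : ∀ t, Measurable (D t) := by
    intro t
    cases t with
    | zero => rw [D0]; exact hY
    | succ t =>
      have h : D (t + 1) = fun ω => if b t ω = true then X t true ω else X t false ω := by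
        funext ω
        rw [DS]
        cases b t ω <;> simp
      rw [h]
      exact Measurable.ite (hb t (measurableSet_singleton true)) (hX t true) (hX t false)
  have Dn : ∀ t ω, 0 ≤ D t ω := by
    intro t ω
    cases t with
    | zero => rw [D0]; exact hY0 ω
    | succ t => rw [DS]; exact hX0 _ _ _
  have Df : ∀ s t, s ≤ t → ∀ ω ω', r t ω ω' → D s ω = D s ω' := by
    intro s t hst ω ω' h
    cases s with
    | zero => rw [D0]; exact hYf t ω ω' h
    | succ s =>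
      rw [DS, DS, hbf s t (by omega) ω ω' h, hXf s t (by omega) _ ω ω' h]
  -- the sets on which the process is still running
  obtain ⟨A, hA⟩ : ∃ A : ℕ → Set Ω, ∀ t, A t = {ω | Y ω ≤ a ∧ ∀ s < t, D s ω < 1 / 2 ∧
      p s ω * X s false ω + (1 - p s ω) * X s true ω ≤ D s ω + ε s} := ⟨_, fun _ => rfl⟩
  have Am : ∀ t, MeasurableSet (A t) := by
    intro t
    rw [hA]
    have h : {ω | Y ω ≤ a ∧ ∀ s < t, D s ω < 1 / 2 ∧
        p s ω * X s false ω + (1 - p s ω) * X s true ω ≤ D s ω + ε s} =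
        {ω | Y ω ≤ a} ∩ ⋂ s, ⋂ (_ : s < t), ({ω | D s ω < 1 / 2} ∩
          {ω | p s ω * X s false ω + (1 - p s ω) * X s true ω ≤ D s ω + ε s}) := by
      ext ω
      simp only [mem_ofPred_eq, mem_inter_iff, mem_iInter]
    rw [h]
    refine (measurableSet_le hY measurable_const).inter ?_
    refine MeasurableSet.iInter fun s => MeasurableSet.iInter fun _ => ?_
    refine (measurableSet_lt (Dm s) measurable_const).inter ?_
    exact measurableSet_le (((hp s).mul (hX s false)).add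
      ((measurable_const.sub (hp s)).mul (hX s true))) ((Dm s).add_const (ε s))
  have Af : ∀ t ω ω', r t ω ω' → (ω ∈ A (t + 1) ↔ ω' ∈ A (t + 1)) := by
    intro t ω ω' h
    simp only [hA, mem_ofPred_eq]
    rw [hYf t ω ω' h]
    refine and_congr_right fun _ => forall_congr' fun s => forall_congr' fun hst => ?_
    rw [Df s t (by omega) ω ω' h, hXf s t (by omega) _ ω ω' h, hXf s t (by omega) _ ω ω' h,
      hpf s t (by omega) ω ω' h]
  obtain ⟨H, hH⟩ : ∃ H : ℕ → Set Ω, ∀ t, H t = A t ∩ {ω | 1 / 2 ≤ D t ω} := ⟨_, fun _ => rfl⟩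
  have Hm : ∀ t, MeasurableSet (H t) := by
    intro t
    rw [hH]
    exact (Am t).inter (measurableSet_le measurable_const (Dm t))
  obtain ⟨U, hU⟩ : ∃ U : ℕ → ℝ≥0∞, ∀ t, U t = ∫⁻ ω in A t, ENNReal.ofReal (D t ω) ∂μ :=
    ⟨_, fun _ => rfl⟩
  -- one step
  have hstep : ∀ t, U (t + 1) + 2⁻¹ * μ (H t) ≤ U t + ENNReal.ofReal (ε t) := by
    intro t
    have hsubA : A (t + 1) ⊆ A t := by
      intro ω hω
      rw [hA, mem_ofPred_eq] at hω ⊢
      exact ⟨hω.1, fun s hs => hω.2 s (by omega)⟩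
    have h2 : U (t + 1) = ∫⁻ ω in A (t + 1), ENNReal.ofReal (X t (b t ω) ω) ∂μ := by
      rw [hU]
      exact lintegral_congr fun ω => by rw [DS]
    have h6 : U (t + 1) ≤ (∫⁻ ω in A (t + 1), ENNReal.ofReal (D t ω) ∂μ) +
        ENNReal.ofReal (ε t) := by
      rw [h2]
      refine (bet μ (b t) (X t) (p t) (r t) (hb t) (hX t) (hp t)
        (fun i ω ω' h => hXf t t le_rfl i ω ω' h) (p0 t) (p1 t) (hφ t) (hX0 t) (A (t + 1))
        (Am _) (Af t)).trans ?_
      have h7 : ∫⁻ ω in A (t + 1), ENNReal.ofReal (p t ω * X t false ω +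
          (1 - p t ω) * X t true ω) ∂μ ≤ ∫⁻ ω in A (t + 1), ENNReal.ofReal (D t ω + ε t) ∂μ := by
        refine setLIntegral_mono ((Dm t).add_const _).ennreal_ofReal ?_
        intro ω hω
        rw [hA, mem_ofPred_eq] at hω
        exact ENNReal.ofReal_le_ofReal (hω.2 t (by omega)).2
      refine h7.trans ?_
      calc ∫⁻ ω in A (t + 1), ENNReal.ofReal (D t ω + ε t) ∂μ
          = ∫⁻ ω in A (t + 1), (ENNReal.ofReal (D t ω) + ENNReal.ofReal (ε t)) ∂μ :=
            lintegral_congr fun ω => ENNReal.ofReal_add (Dn t ω) (hε t)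
        _ = (∫⁻ ω in A (t + 1), ENNReal.ofReal (D t ω) ∂μ) +
            ENNReal.ofReal (ε t) * μ (A (t + 1)) := by
            rw [lintegral_add_right _ measurable_const, setLIntegral_const]
        _ ≤ (∫⁻ ω in A (t + 1), ENNReal.ofReal (D t ω) ∂μ) + ENNReal.ofReal (ε t) * 1 := by
            gcongr
            exact prob_le_one
        _ = _ := by rw [mul_one]
    have hdisj : Disjoint (A (t + 1)) (H t) := by
      rw [Set.disjoint_left]
      intro ω h7 h8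
      rw [hA, mem_ofPred_eq] at h7
      rw [hH] at h8
      have h9 := (h7.2 t (by omega)).1
      have h10 : 1 / 2 ≤ D t ω := h8.2
      linarith
    have h7 : (∫⁻ ω in A (t + 1), ENNReal.ofReal (D t ω) ∂μ) + 2⁻¹ * μ (H t) ≤ U t := by
      have h8 : 2⁻¹ * μ (H t) ≤ ∫⁻ ω in H t, ENNReal.ofReal (D t ω) ∂μ := by
        rw [← setLIntegral_const]
        refine setLIntegral_mono (Dm t).ennreal_ofReal ?_
        intro ω hω
        rw [hH] at hω
        have h9 : 1 / 2 ≤ D t ω := hω.2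
        calc (2⁻¹ : ℝ≥0∞) = ENNReal.ofReal (1 / 2) := by
              rw [one_div, ENNReal.ofReal_inv_of_pos (by norm_num), ENNReal.ofReal_ofNat]
          _ ≤ _ := ENNReal.ofReal_le_ofReal h9
      calc (∫⁻ ω in A (t + 1), ENNReal.ofReal (D t ω) ∂μ) + 2⁻¹ * μ (H t)
          ≤ (∫⁻ ω in A (t + 1), ENNReal.ofReal (D t ω) ∂μ) +
            ∫⁻ ω in H t, ENNReal.ofReal (D t ω) ∂μ := by gcongr
        _ = ∫⁻ ω in A (t + 1) ∪ H t, ENNReal.ofReal (D t ω) ∂μ :=
            (lintegral_union (Hm t) hdisj).symm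
        _ ≤ U t := by
            rw [hU]
            refine lintegral_mono_set (union_subset hsubA ?_)
            rw [hH]
            exact inter_subset_left
    calc U (t + 1) + 2⁻¹ * μ (H t) ≤ ((∫⁻ ω in A (t + 1), ENNReal.ofReal (D t ω) ∂μ) +
        ENNReal.ofReal (ε t)) + 2⁻¹ * μ (H t) := by gcongr
      _ = ((∫⁻ ω in A (t + 1), ENNReal.ofReal (D t ω) ∂μ) + 2⁻¹ * μ (H t)) +
        ENNReal.ofReal (ε t) := by ring
      _ ≤ U t + ENNReal.ofReal (ε t) := by gcongr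
  -- summation
  have hsum : ∀ T, U T + ∑ t ∈ Finset.range T, 2⁻¹ * μ (H t) ≤
      ENNReal.ofReal a + ∑ t ∈ Finset.range T, ENNReal.ofReal (ε t) := by
    intro T
    induction T with
    | zero =>
      simp only [Finset.range_zero, Finset.sum_empty, add_zero]
      rw [hU]
      calc ∫⁻ ω in A 0, ENNReal.ofReal (D 0 ω) ∂μ ≤ ∫⁻ _ in A 0, ENNReal.ofReal a ∂μ := by
            refine setLIntegral_mono measurable_const ?_
            intro ω hω
            rw [hA, mem_ofPred_eq] at hω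
            rw [D0]
            exact ENNReal.ofReal_le_ofReal hω.1
        _ = ENNReal.ofReal a * μ (A 0) := setLIntegral_const _ _
        _ ≤ ENNReal.ofReal a * 1 := by
            gcongr
            exact prob_le_one
        _ = ENNReal.ofReal a := mul_one _
    | succ T ih =>
      rw [Finset.sum_range_succ, Finset.sum_range_succ]
      calc U (T + 1) + (∑ t ∈ Finset.range T, 2⁻¹ * μ (H t) + 2⁻¹ * μ (H T))
          = (U (T + 1) + 2⁻¹ * μ (H T)) + ∑ t ∈ Finset.range T, 2⁻¹ * μ (H t) := by ring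
        _ ≤ (U T + ENNReal.ofReal (ε T)) + ∑ t ∈ Finset.range T, 2⁻¹ * μ (H t) :=
            add_le_add_left (hstep T) _
        _ = (U T + ∑ t ∈ Finset.range T, 2⁻¹ * μ (H t)) + ENNReal.ofReal (ε T) := by ring
        _ ≤ (ENNReal.ofReal a + ∑ t ∈ Finset.range T, ENNReal.ofReal (ε t)) +
            ENNReal.ofReal (ε T) := by gcongr
        _ = _ := by ring
  have htot : ∑' t, 2⁻¹ * μ (H t) ≤ ENNReal.ofReal (a + ∑' t, ε t) := by
    refine ENNReal.tsum_le_of_sum_range_le fun T => ?_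
    calc ∑ t ∈ Finset.range T, 2⁻¹ * μ (H t) ≤ U T + ∑ t ∈ Finset.range T, 2⁻¹ * μ (H t) :=
          le_add_self
      _ ≤ ENNReal.ofReal a + ∑ t ∈ Finset.range T, ENNReal.ofReal (ε t) := hsum T
      _ = ENNReal.ofReal (a + ∑ t ∈ Finset.range T, ε t) := by
          rw [← ENNReal.ofReal_sum_of_nonneg (fun t _ => hε t),
            ← ENNReal.ofReal_add ha (Finset.sum_nonneg fun t _ => hε t)]
      _ ≤ _ := by
          apply ENNReal.ofReal_le_ofReal
          have := hs.sum_le_tsum (Finset.range T) (fun t _ => hε t)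
          linarith
  -- the event is covered
  have hcov : {ω | Y ω ≤ a ∧
      (∀ t, p t ω * X t false ω + (1 - p t ω) * X t true ω ≤ D t ω + ε t) ∧
      ∃ t, 1 / 2 ≤ D t ω} ⊆ ⋃ t, H t := by
    rintro ω ⟨h1, h2, h3⟩
    classical
    refine mem_iUnion.2 ⟨Nat.find h3, ?_⟩
    rw [hH]
    refine ⟨?_, Nat.find_spec h3⟩
    rw [hA, mem_ofPred_eq]
    exact ⟨h1, fun s hs => ⟨not_le.1 (Nat.find_min h3 hs), h2 s⟩⟩
  calc μ {ω | Y ω ≤ a ∧
      (∀ t, p t ω * X t false ω + (1 - p t ω) * X t true ω ≤ D t ω + ε t) ∧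
      ∃ t, 1 / 2 ≤ D t ω} ≤ μ (⋃ t, H t) := measure_mono hcov
    _ ≤ ∑' t, μ (H t) := measure_iUnion_le _
    _ = 2 * ∑' t, 2⁻¹ * μ (H t) := by
        rw [ENNReal.tsum_mul_left, ← mul_assoc, ENNReal.mul_inv_cancel (by norm_num) (by norm_num),
          one_mul]
    _ ≤ 2 * ENNReal.ofReal (a + ∑' t, ε t) := by gcongr
    _ = ENNReal.ofReal (2 * (a + ∑' t, ε t)) := by
        rw [ENNReal.ofReal_mul (by norm_num), ENNReal.ofReal_ofNat]

end Pool.Agent.RelT
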