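import Pool.Agent.RelT.NN

/-!
# The mean entropy of the answers of a hidden language
-/

set_option autoImplicit false

namespace Pool.Agent.RelT

open Pool.Agent.RelM (Lang str qb)
open Pool.Agent.RelO (lev levmono levpow)
open Pool.Agent.RelS (Idx Om gf gf_nonneg)

namespace CNT_

/-- Powers of the logarithm are small. -/
lemma polylog (κ : ℕ) {X ε : ℝ} (hX : 0 ≤ X) (hε : 0 < ε) :
    ∃ C : ℝ, ∀ t : ℕ, X * ((Nat.log 2 (t + 1) + 2 : ℕ) : ℝ) ^ (κ + 2) ≤ ε * t + C := by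
  obtain ⟨N, hN⟩ := NN_.exp_bound_real (κ + 2) 0 X hX hε
  refine ⟨ε + X * ((N + 2 : ℕ) : ℝ) ^ (κ + 2), fun t => ?_⟩
  have h3 : 0 ≤ X * ((N + 2 : ℕ) : ℝ) ^ (κ + 2) := by positivity
  have h4 : 0 ≤ ε * (t : ℝ) := by positivity
  by_cases h : N ≤ Nat.log 2 (t + 1)
  · have h1 := hN _ h
    have h2 : ((2 ^ Nat.log 2 (t + 1) : ℕ) : ℝ) ≤ ((t + 1 : ℕ) : ℝ) :=
      Nat.cast_le.2 (Nat.pow_log_le_self 2 (by omega))
    rw [Nat.add_zero] at h1
    rw [Nat.cast_pow] at h2
    have h5 : ε * (2 : ℝ) ^ Nat.log 2 (t + 1) ≤ ε * ((t + 1 : ℕ) : ℝ) :=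
      mul_le_mul_of_nonneg_left (by exact_mod_cast h2) hε.le
    have h6 : ε * ((t + 1 : ℕ) : ℝ) = ε * t + ε := by push_cast; ring
    linarith
  · have h1 : X * ((Nat.log 2 (t + 1) + 2 : ℕ) : ℝ) ^ (κ + 2) ≤
        X * ((N + 2 : ℕ) : ℝ) ^ (κ + 2) := by
      refine mul_le_mul_of_nonneg_left ?_ hX
      refine pow_le_pow_left₀ (by positivity) ?_ _
      exact Nat.cast_le.2 (by omega)
    linarith

/-- The sum over blocks. -/
lemma blocks {D : ℕ} {A : ℝ} {G : ℕ → ℝ} {b : ℕ → ℕ} (hG : ∀ t, 0 ≤ G t) (hb : Monotone b)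
    (hB : ∀ m, b (m * D) = b ((m + 1) * D) → A * D ≤ ∑ c ∈ Finset.range D, G (m * D + c))
    (M : ℕ) : A * D * M - |A| * D * b (M * D) ≤ ∑ t ∈ Finset.range (M * D), G t := by
  induction M with
  | zero =>
    simp only [Nat.cast_zero, mul_zero, zero_mul, Finset.range_zero, Finset.sum_empty]
    have : 0 ≤ |A| * D * (b 0 : ℝ) := by positivity
    linarith
  | succ M ih =>
    have h1 : (M + 1) * D = M * D + D := by ring
    have h2 : ∑ t ∈ Finset.range ((M + 1) * D), G t =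
        ∑ t ∈ Finset.range (M * D), G t + ∑ c ∈ Finset.range D, G (M * D + c) := by
      rw [h1, Finset.sum_range_add]
    rw [h2]
    have h3 : b (M * D) ≤ b ((M + 1) * D) := hb (Nat.mul_le_mul_right _ (by omega))
    have h4 : 0 ≤ |A| * (D : ℝ) := by positivity
    rcases eq_or_lt_of_le h3 with h | h
    · have h5 := hB M h
      rw [← h]
      push_cast
      linarith
    · have h5 : 0 ≤ ∑ c ∈ Finset.range D, G (M * D + c) := Finset.sum_nonneg fun c _ => hG _
      have h6 : ((b (M * D) : ℝ)) + 1 ≤ (b ((M + 1) * D) : ℝ) := by exact_mod_cast h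
      have h7 : |A| * D * (((b (M * D) : ℝ)) + 1) ≤ |A| * D * (b ((M + 1) * D) : ℝ) :=
        mul_le_mul_of_nonneg_left h6 h4
      have h8 : A * D ≤ |A| * D := mul_le_mul_of_nonneg_right (le_abs_self A) (by positivity)
      push_cast at h7 ⊢
      linarith

/-- The stage of a word is at most the level of its keys. -/
lemma jj_le (Φ : Par) (m : ℕ) : jj Φ m ≤ m :=
  Nat.sInf_le (by
    show m < nn Φ m
    have := nnge Φ m
    omega)

lemma jj_mono (Φ : Par) {m m' : ℕ} (h : m ≤ m') : jj Φ m ≤ jj Φ m' :=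
  Nat.sInf_le (by
    show m < nn Φ (jj Φ m')
    have := (jjspec Φ m').1
    omega)

lemma bl_mono (Φ : Par) (κ : ℕ) : Monotone fun t => bl Φ κ (str t) := by
  intro t t' h
  refine jj_mono Φ (levmono _ _ _ ?_)
  rw [Pool.Agent.RelM.strlen, Pool.Agent.RelM.strlen]
  exact Nat.log_mono_right (by omega)

end CNT_

open CNT_

/-- The mean entropy of the answers of a hidden language. -/
theorem cnt : T_CNT := by
  intro Φ κ ε hε
  set A : ℝ := Φ.a * Real.log 2 - 1 / ((κ : ℝ) + 1) with hA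
  set D : ℕ := Φ.dm κ with hD
  have hD1 : 1 ≤ D := Φ.dm1 κ
  have hX : 0 ≤ |A| * (D : ℝ) := by positivity
  obtain ⟨C, hC⟩ := polylog κ hX hε
  refine ⟨C + |A| * D, fun t ω => ?_⟩
  let b : ℕ → ℕ := fun t => bl Φ κ (str t)
  let o : ℕ → ℕ := fun v => (hs Φ ω v).1 v
  let G : ℕ → ℝ := fun t => Real.binEntropy (rt Φ κ t ω)
  have hGF : ∀ t, G t = gf (Φ.lam (o (b t)) * Φ.mul κ (t % D)) := fun t => rfl
  have hG : ∀ t, 0 ≤ G t := fun t => by
    rw [hGF]
    exact gf_nonneg (mul_nonneg (Φ.lam0 _) (Φ.mul0 _ _))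
  have hb : Monotone b := bl_mono Φ κ
  have hB : ∀ m, b (m * D) = b ((m + 1) * D) → A * D ≤ ∑ c ∈ Finset.range D, G (m * D + c) := by
    intro m hm
    refine (Φ.hid κ (o (b (m * D))) (opt Φ ω _ _)).trans (le_of_eq ?_)
    refine Finset.sum_congr rfl fun c hc => ?_
    rw [Finset.mem_range] at hc
    have h1 : b (m * D + c) = b (m * D) := by
      refine le_antisymm ?_ (hb (by omega))
      rw [hm]
      refine hb ?_
      have : (m + 1) * D = m * D + D := by ring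
      omega
    rw [hGF, h1, Nat.mul_add_mod', Nat.mod_eq_of_lt hc]
  have h1 := blocks hG hb hB (t / D)
  have h2 : t / D * D ≤ t := Nat.div_mul_le_self t D
  have h3 : ∑ t' ∈ Finset.range (t / D * D), G t' ≤ ∑ t' ∈ Finset.range t, G t' :=
    Finset.sum_le_sum_of_subset_of_nonneg (Finset.range_subset_range.2 h2) fun i _ _ => hG i
  have h4 : A * t - |A| * D ≤ A * D * (t / D : ℕ) := by
    have e1 : t = t / D * D + t % D := by
      have := Nat.div_add_mod' t D
      omega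
    have e2 : (t : ℝ) = ((t / D : ℕ) : ℝ) * D + ((t % D : ℕ) : ℝ) := by
      exact_mod_cast e1
    have e3 : ((t % D : ℕ) : ℝ) ≤ D := by
      exact_mod_cast (Nat.mod_lt t (by omega)).le
    have e4 : A * ((t % D : ℕ) : ℝ) ≤ |A| * D := by
      calc A * ((t % D : ℕ) : ℝ) ≤ |A| * ((t % D : ℕ) : ℝ) :=
            mul_le_mul_of_nonneg_right (le_abs_self A) (by positivity)
        _ ≤ |A| * D := mul_le_mul_of_nonneg_left e3 (abs_nonneg A)
    have e5 : A * (t : ℝ) = A * D * ((t / D : ℕ) : ℝ) + A * ((t % D : ℕ) : ℝ) := by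
      rw [e2]
      ring
    linarith
  have h5 : ((b (t / D * D) : ℕ) : ℝ) ≤ ((Nat.log 2 (t + 1) + 2 : ℕ) : ℝ) ^ (κ + 2) := by
    have e1 : b (t / D * D) ≤ b t := hb h2
    have e2 : b t ≤ lev κ (str t) := jj_le Φ _
    have e3 : lev κ (str t) ≤ ((str t).length + 2) ^ (κ + 2) := levpow κ (str t)
    rw [Pool.Agent.RelM.strlen] at e3
    exact_mod_cast (e1.trans e2).trans e3
  have h6 : |A| * D * (b (t / D * D) : ℝ) ≤ ε * t + C :=
    (mul_le_mul_of_nonneg_left h5 hX).trans (hC t)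
  have h7 : (A - ε) * t = A * t - ε * t := by ring
  show (A - ε) * t - (C + |A| * D) ≤ ∑ t' ∈ Finset.range t, G t'
  linarith

end Pool.Agent.RelT
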