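import Pool.Agent.RelT.HIT

/-!
# The probability of a bit of a hidden language
-/

set_option autoImplicit false

namespace Pool.Agent.RelT

open MeasureTheory Set
open scoped ENNReal
open Pool.Agent.RelM (Lang Instr Cfg step run Halts pair str pre wq sq0 sq1 Asks hq)
open Pool.Agent.RelO (lev levmono)
open Pool.Agent.RelS (Z Rl orcV orc Idx Om Dep mixP fd meas_of_dep ovis ocut bern)

namespace FAIR_

/-- The words of length `L`. -/
def Ys (L : ℕ) : Finset (List Bool) :=
  (Finset.univ : Finset (List.Vector Bool L)).image List.Vector.toList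

lemma mem_Ys {L : ℕ} {y : List Bool} : y ∈ Ys L ↔ y.length = L := by
  unfold Ys
  rw [Finset.mem_image]
  constructor
  · rintro ⟨v, _, rfl⟩
    exact v.2
  · intro h
    exact ⟨⟨y, h⟩, Finset.mem_univ _, rfl⟩

lemma card_Ys (L : ℕ) : (Ys L).card = 2 ^ L := by
  unfold Ys
  rw [Finset.card_image_of_injective _ List.Vector.toList_injective, Finset.card_univ, card_vector]
  simp

/-- The coins of the pair with the option `o`. -/
def Cs (κ : ℕ) (x : List Bool) (o : ℕ) : Finset Idx :=
  (Ys (lev κ x)).image fun y => (κ, x, y, o)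

lemma prod_sv (Φ : Par) (κ : ℕ) (x : List Bool) (o : ℕ) :
    ∏ a ∈ Cs κ x o, sv Φ a = Real.exp (-(Φ.lam o * ml Φ κ x)) := by
  unfold Cs
  rw [Finset.prod_image (by
    intro y _ y' _ h
    simpa using h)]
  unfold sv
  rw [← Real.exp_sum]
  congr 1
  unfold ex
  simp only [Finset.sum_neg_distrib, Finset.sum_const, card_Ys, nsmul_eq_mul]
  push_cast
  field_simp

/-- The event that the pair has (`true`) or has not (`false`) a key with the option `o`. -/
def Ev (κ : ℕ) (x : List Bool) (o : ℕ) (b : Bool) : Set Om :=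
  {ω | (∀ a ∈ Cs κ x o, ω a = false) ↔ b = false}

lemma Ev_meas (κ : ℕ) (x : List Bool) (o : ℕ) (b : Bool) : MeasurableSet (Ev κ x o b) := by
  refine fd (Finset.finite_toSet (Cs κ x o)) fun ω ω' h => ?_
  have : (∀ a ∈ Cs κ x o, ω a = false) ↔ ∀ a ∈ Cs κ x o, ω' a = false := by
    constructor
    · intro h' a ha
      rw [← h a ha]
      exact h' a ha
    · intro h' a ha
      rw [h a ha]
      exact h' a ha
  show ((∀ a ∈ Cs κ x o, ω a = false) ↔ b = false) ↔ ((∀ a ∈ Cs κ x o, ω' a = false) ↔ b = false)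
  rw [this]

lemma Ev_prob (Φ : Par) (κ : ℕ) (x : List Bool) (o : ℕ) (b : Bool) :
    coin Φ (Ev κ x o b) = ENNReal.ofReal (if b = false then Real.exp (-(Φ.lam o * ml Φ κ x))
      else 1 - Real.exp (-(Φ.lam o * ml Φ κ x))) := by
  have hf : coin Φ (Ev κ x o false) = ENNReal.ofReal (Real.exp (-(Φ.lam o * ml Φ κ x))) := by
    have : Ev κ x o false = {ω : Om | ∀ a ∈ Cs κ x o, ω a = false} := by
      ext ω
      simp [Ev]
    rw [this, coin_false, prod_sv]
  cases b with
  | false => simpa using hf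
  | true =>
    have : Ev κ x o true = (Ev κ x o false)ᶜ := by
      ext ω
      simp [Ev]
    rw [this, prob_compl_eq_one_sub (Ev_meas κ x o false), hf]
    simp only [Bool.true_eq_false, if_false]
    rw [ENNReal.ofReal_sub _ (Real.exp_pos _).le, ENNReal.ofReal_one]

lemma vis_old (Φ : Par) (κ t : ℕ) {J : ℕ} (hJ : bl Φ κ (str t) = J + 1)
    (hJ1 : nn Φ J ≤ lev κ (str t)) : Old Φ J ⊆ Vis Φ κ t := by
  intro a ha
  refine ⟨?_, ?_⟩
  · rw [hJ]
    exact old_mono Φ (Nat.le_succ J) ha
  · rintro ⟨h1, t', ht', h2⟩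
    have h3 : lev a.1 a.2.1 < nn Φ J := ha.1
    rw [h1, h2] at h3
    have h4 : lev κ (str t) ≤ lev κ (str t') := by
      refine levmono _ _ _ ?_
      rw [Pool.Agent.RelM.strlen, Pool.Agent.RelM.strlen]
      exact Nat.log_mono_right (by omega)
    omega

end FAIR_

open FAIR_ HIT_

/-- The integral over the samples with a given bit. -/
theorem fair_b (Φ : Par) (κ t : ℕ) (H : Om → ℝ≥0∞) (b : Bool) (h0 : nn Φ 0 ≤ lev κ (str t))
    (hH : Measurable H) (dH : Dep (Vis Φ κ t) H) :
    ∫⁻ ω in {ω | Rl (zo Φ ω) κ (str t) = b}, H ω ∂(coin Φ) =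
      ∫⁻ ω, ENNReal.ofReal (if b = false then rt Φ κ t ω else 1 - rt Φ κ t ω) * H ω ∂(coin Φ) := by
  classical
  obtain ⟨J, hJ, hJ1, hJ2⟩ := bl_succ Φ κ t h0
  let O : Om → ℕ := fun ω => (hs Φ ω (J + 1)).1 (J + 1)
  have hOd : Dep (Old Φ J) O := by
    intro ω ω' h
    show (hs Φ ω (J + 1)).1 (J + 1) = (hs Φ ω' (J + 1)).1 (J + 1)
    rw [hsdep Φ J ω ω' h]
  have hOK : ∀ ω, O ω < Φ.K := fun ω => opt Φ ω (J + 1) (J + 1)
  have hOm : Measurable O := meas_of_dep (oldfin Φ J) hOd
  have hrt : ∀ ω, rt Φ κ t ω = Real.exp (-(Φ.lam (O ω) * ml Φ κ (str t))) := by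
    intro ω
    unfold rt ml
    rw [hJ, ix_str]
  have hRl : ∀ ω, Rl (zo Φ ω) κ (str t) = b ↔ ω ∈ Ev κ (str t) (O ω) b := by
    intro ω
    have h1 : Rl (zo Φ ω) κ (str t) = false ↔ ∀ a ∈ Cs κ (str t) (O ω), ω a = false := by
      unfold Rl
      rw [decide_eq_false_iff_not]
      push Not
      have hz : ∀ y, zo Φ ω κ (str t) y = ω (κ, str t, y, O ω) := by
        intro y
        show ω (κ, str t, y, (hf Φ ω).1 (jj Φ (lev κ (str t)))) = _
        have : jj Φ (lev κ (str t)) = J + 1 := hJ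
        rw [this]
        rfl
      constructor
      · intro h a ha
        unfold Cs at ha
        rw [Finset.mem_image] at ha
        obtain ⟨y, hy, rfl⟩ := ha
        have := h y (mem_Ys.1 hy)
        rw [hz] at this
        simpa using this
      · intro h y hy
        rw [hz, h _ (Finset.mem_image.2 ⟨y, mem_Ys.2 hy, rfl⟩)]
        simp
    show _ ↔ ((∀ a ∈ Cs κ (str t) (O ω), ω a = false) ↔ b = false)
    rw [← h1]
    cases b <;> cases Rl (zo Φ ω) κ (str t) <;> simp
  have hset : {ω | Rl (zo Φ ω) κ (str t) = b} =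
      ⋃ o ∈ Finset.range Φ.K, ({ω | O ω = o} ∩ Ev κ (str t) o b) := by
    ext ω
    simp only [Set.mem_iUnion, Finset.mem_range, Set.mem_ofPred_eq, Set.mem_inter_iff]
    rw [hRl]
    constructor
    · intro h
      exact ⟨O ω, hOK ω, rfl, h⟩
    · rintro ⟨o, _, rfl, h⟩
      exact h
  have hOs : ∀ o, MeasurableSet {ω | O ω = o} := fun o => hOm (measurableSet_singleton o)
  have hms : MeasurableSet {ω | Rl (zo Φ ω) κ (str t) = b} := by
    rw [hset]
    exact Finset.measurableSet_biUnion _ fun o _ => (hOs o).inter (Ev_meas _ _ _ _)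
  have hpt : ∀ ω, ({ω | Rl (zo Φ ω) κ (str t) = b}).indicator H ω =
      ∑ o ∈ Finset.range Φ.K, (Ev κ (str t) o b).indicator (1 : Om → ℝ≥0∞) ω *
        ({ω | O ω = o}).indicator H ω := by
    intro ω
    rw [Finset.sum_eq_single (O ω)]
    · by_cases h : ω ∈ Ev κ (str t) (O ω) b
      · rw [Set.indicator_of_mem (show ω ∈ {ω | Rl (zo Φ ω) κ (str t) = b} from (hRl ω).2 h),
          Set.indicator_of_mem h, Set.indicator_of_mem (show ω ∈ {ω' | O ω' = O ω} from rfl)]
        simp
      · rw [Set.indicator_of_notMem (show ω ∉ {ω | Rl (zo Φ ω) κ (str t) = b} from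
          fun h' => h ((hRl ω).1 h')), Set.indicator_of_notMem h]
        simp
    · intro o _ ho
      rw [Set.indicator_of_notMem (show ω ∉ {ω' | O ω' = o} from fun h => ho h.symm)]
      simp
    · intro h
      exact absurd (Finset.mem_range.2 (hOK ω)) h
  have hdep : ∀ o, Dep (pc κ (str t))ᶜ (({ω | O ω = o}).indicator H) := by
    intro o ω ω' h
    have hO' : O ω = O ω' := by
      refine hOd ω ω' fun a ha => h a ?_
      rintro ⟨e1, e2⟩
      have : lev a.1 a.2.1 < nn Φ J := ha.1
      rw [e1, e2] at this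
      omega
    have hH' : H ω = H ω' := by
      refine dH ω ω' fun a ha => h a ?_
      rintro ⟨e1, e2⟩
      exact ha.2 ⟨e1, t, le_rfl, e2⟩
    by_cases ho : O ω = o
    · rw [Set.indicator_of_mem (show ω ∈ {ω | O ω = o} from ho),
        Set.indicator_of_mem (show ω' ∈ {ω | O ω = o} from hO'.symm.trans ho), hH']
    · rw [Set.indicator_of_notMem (show ω ∉ {ω | O ω = o} from ho),
        Set.indicator_of_notMem (show ω' ∉ {ω | O ω = o} from fun h' => ho (hO'.trans h'))]
  have hEdep : ∀ o, Dep (pc κ (str t)) ((Ev κ (str t) o b).indicator (1 : Om → ℝ≥0∞)) := by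
    intro o ω ω' h
    have h1 : ∀ a ∈ Cs κ (str t) o, ω a = ω' a := by
      intro a ha
      unfold Cs at ha
      rw [Finset.mem_image] at ha
      obtain ⟨y, _, rfl⟩ := ha
      exact h _ ⟨rfl, rfl⟩
    have h2 : ω ∈ Ev κ (str t) o b ↔ ω' ∈ Ev κ (str t) o b := by
      have : (∀ a ∈ Cs κ (str t) o, ω a = false) ↔ ∀ a ∈ Cs κ (str t) o, ω' a = false := by
        constructor
        · intro h' a ha
          rw [← h1 a ha]
          exact h' a ha
        · intro h' a ha
          rw [h1 a ha]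
          exact h' a ha
      show ((∀ a ∈ Cs κ (str t) o, ω a = false) ↔ b = false) ↔
        ((∀ a ∈ Cs κ (str t) o, ω' a = false) ↔ b = false)
      rw [this]
    by_cases hω : ω ∈ Ev κ (str t) o b
    · rw [Set.indicator_of_mem hω, Set.indicator_of_mem (h2.1 hω)]
      rfl
    · rw [Set.indicator_of_notMem hω, Set.indicator_of_notMem fun h => hω (h2.2 h)]
  rw [← lintegral_indicator hms]
  simp only [hpt]
  have hmul : ∀ o, Measurable fun ω => (Ev κ (str t) o b).indicator (1 : Om → ℝ≥0∞) ω *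
      ({ω | O ω = o}).indicator H ω := fun o =>
    (measurable_one.indicator (Ev_meas _ _ _ _)).mul (hH.indicator (hOs o))
  rw [lintegral_finsetSum _ fun o _ => hmul o]
  have hterm : ∀ o, ∫⁻ ω, (Ev κ (str t) o b).indicator (1 : Om → ℝ≥0∞) ω *
      ({ω | O ω = o}).indicator H ω ∂(coin Φ) =
      ∫⁻ ω, ({ω | O ω = o}).indicator (fun ω =>
        ENNReal.ofReal (if b = false then rt Φ κ t ω else 1 - rt Φ κ t ω) * H ω) ω ∂(coin Φ) := by
    intro o
    rw [indep Φ (measurable_one.indicator (Ev_meas κ (str t) o b)) (hH.indicator (hOs o))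
      (hEdep o) (hdep o), lintegral_indicator_one (Ev_meas _ _ _ _), Ev_prob,
      ← lintegral_const_mul _ (hH.indicator (hOs o))]
    refine lintegral_congr fun ω => ?_
    by_cases ho : O ω = o
    · rw [Set.indicator_of_mem (show ω ∈ {ω | O ω = o} from ho),
        Set.indicator_of_mem (show ω ∈ {ω | O ω = o} from ho), hrt, ho]
    · rw [Set.indicator_of_notMem (show ω ∉ {ω | O ω = o} from ho),
        Set.indicator_of_notMem (show ω ∉ {ω | O ω = o} from ho), mul_zero]
  simp only [hterm]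
  have hrm : Measurable fun ω =>
      ENNReal.ofReal (if b = false then rt Φ κ t ω else 1 - rt Φ κ t ω) * H ω := by
    refine Measurable.mul ?_ hH
    refine Measurable.ennreal_ofReal ?_
    have h1 : Measurable fun ω => rt Φ κ t ω := by
      have : (fun ω => rt Φ κ t ω) = (fun o : ℕ => Real.exp (-(Φ.lam o * ml Φ κ (str t)))) ∘ O := by
        funext ω
        exact hrt ω
      rw [this]
      exact (measurable_from_top).comp hOm
    split_ifs
    · exact h1
    · exact measurable_const.sub h1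
  rw [← lintegral_finsetSum _ fun o _ => hrm.indicator (hOs o)]
  refine lintegral_congr fun ω => ?_
  rw [Finset.sum_eq_single (O ω)]
  · rw [Set.indicator_of_mem (show ω ∈ {ω' | O ω' = O ω} from rfl)]
  · intro o _ ho
    rw [Set.indicator_of_notMem (show ω ∉ {ω' | O ω' = o} from fun h => ho h.symm)]
  · intro h
    exact absurd (Finset.mem_range.2 (hOK ω)) h

theorem fair : T_FAIR := by
  intro Φ κ t H h0 hH dH
  refine ⟨?_, ?_⟩
  · rw [fair_b Φ κ t H false h0 hH dH]
    simp
  · rw [fair_b Φ κ t H true h0 hH dH]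
    simp

end Pool.Agent.RelT
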