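import Mathlib

/-!
# The moment of the capital after the next bit (job HOL)
-/

set_option autoImplicit false

namespace Pool.Agent.RelT

open Real

namespace HOL_

theorem exp_neg_le {z : ℝ} (hz : 0 ≤ z) : exp (-z) ≤ 1 - z + z ^ 2 / 2 := by
  have h1 := quadratic_le_exp_of_nonneg hz
  have h2 : exp (-z) * exp z = 1 := by rw [← exp_add]; simp
  have h3 := exp_pos (-z)
  have h4 : 1 ≤ (1 - z + z ^ 2 / 2) * (1 + z + z ^ 2 / 2) := by nlinarith [sq_nonneg (z ^ 2)]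
  have h5 : 0 < 1 + z + z ^ 2 / 2 := by positivity
  have h6 : exp (-z) * (1 + z + z ^ 2 / 2) ≤ 1 :=
    (mul_le_mul_of_nonneg_left h1 h3.le).trans h2.le
  by_contra hcon
  push Not at hcon
  have := mul_lt_mul_of_pos_right hcon h5
  linarith

theorem sq_le_exp {u : ℝ} (hu : 0 ≤ u) : u ^ 2 ≤ exp u := by
  have h1 := quadratic_le_exp_of_nonneg (show 0 ≤ u / 2 by positivity)
  have h2 : u ≤ exp (u / 2) := by nlinarith [sq_nonneg (u - 2)]
  calc u ^ 2 ≤ exp (u / 2) ^ 2 := by gcongr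
    _ = exp u := by rw [← exp_nat_mul]; congr 1; push_cast; ring

/-- One term of the sum. -/
theorem term {p τ : ℝ} (p0 : 0 ≤ p) (p1 : p ≤ 1) (hτ : 0 ≤ τ) :
    p ^ (1 + τ) ≤ p - τ * negMulLog p + τ ^ 2 / 2 := by
  rcases eq_or_lt_of_le p0 with h | h
  · rw [← h, zero_rpow (by positivity)]
    simp only [negMulLog_zero]
    have := sq_nonneg τ
    linarith
  · obtain ⟨u, hu⟩ : ∃ u, u = -log p := ⟨_, rfl⟩
    have hu0 : 0 ≤ u := by
      rw [hu]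
      linarith [log_nonpos p0 p1]
    have hp : p = exp (-u) := by rw [hu, neg_neg, exp_log h]
    have h1 : p ^ (1 + τ) = p * exp (-(τ * u)) := by
      rw [rpow_add h, rpow_one, rpow_def_of_pos h]
      congr 2
      rw [hu]
      ring
    have h2 : negMulLog p = p * u := by
      rw [negMulLog, hu]
      ring
    have h3 := exp_neg_le (show 0 ≤ τ * u by positivity)
    have h4 : p * u ^ 2 ≤ 1 := by
      have h5 := sq_le_exp hu0
      have h6 : exp (-u) * exp u = 1 := by rw [← exp_add]; simp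
      rw [hp]
      calc exp (-u) * u ^ 2 ≤ exp (-u) * exp u := by gcongr
        _ = 1 := h6
    rw [h1, h2]
    calc p * exp (-(τ * u)) ≤ p * (1 - τ * u + (τ * u) ^ 2 / 2) := by gcongr
      _ = p - τ * (p * u) + τ ^ 2 / 2 * (p * u ^ 2) := by ring
      _ ≤ p - τ * (p * u) + τ ^ 2 / 2 * 1 := by gcongr
      _ = _ := by ring

/-- Hölder's inequality for two terms. -/
theorem holder2 {θ x0 x1 v0 v1 : ℝ} (h0 : 0 < θ) (h1 : θ ≤ 1) (hx0 : 0 ≤ x0) (hx1 : 0 ≤ x1)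
    (hv0 : 0 ≤ v0) (hv1 : 0 ≤ v1) (hV : 0 < v0 + v1) :
    x0 ^ θ * v0 ^ (1 - θ) + x1 ^ θ * v1 ^ (1 - θ) ≤ (x0 + x1) ^ θ * (v0 + v1) ^ (1 - θ) := by
  rcases eq_or_lt_of_le (add_nonneg hx0 hx1) with h | h
  · have e0 : x0 = 0 := by linarith
    have e1 : x1 = 0 := by linarith
    rw [e0, e1, zero_rpow h0.ne']
    simp only [zero_mul, add_zero]
    positivity
  · have key : ∀ x v : ℝ, 0 ≤ x → 0 ≤ v → x ^ θ * v ^ (1 - θ) ≤
        (θ * (x / (x0 + x1)) + (1 - θ) * (v / (v0 + v1))) *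
          ((x0 + x1) ^ θ * (v0 + v1) ^ (1 - θ)) := by
      intro x v hx hv
      have h2 := geom_mean_le_arith_mean2_weighted h0.le (by linarith : (0 : ℝ) ≤ 1 - θ)
        (div_nonneg hx h.le) (div_nonneg hv hV.le) (by ring)
      rw [div_rpow hx h.le, div_rpow hv hV.le] at h2
      have h3 : 0 < (x0 + x1) ^ θ := rpow_pos_of_pos h _
      have h4 : 0 < (v0 + v1) ^ (1 - θ) := rpow_pos_of_pos hV _
      calc x ^ θ * v ^ (1 - θ) = x ^ θ / (x0 + x1) ^ θ * (v ^ (1 - θ) / (v0 + v1) ^ (1 - θ)) *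
            ((x0 + x1) ^ θ * (v0 + v1) ^ (1 - θ)) := by field_simp
        _ ≤ _ := by gcongr
    have e1 := key x0 v0 hx0 hv0
    have e2 := key x1 v1 hx1 hv1
    have e3 : (θ * (x0 / (x0 + x1)) + (1 - θ) * (v0 / (v0 + v1))) +
        (θ * (x1 / (x0 + x1)) + (1 - θ) * (v1 / (v0 + v1))) = 1 := by
      field_simp
      ring
    have e4 : ((θ * (x0 / (x0 + x1)) + (1 - θ) * (v0 / (v0 + v1))) +
        (θ * (x1 / (x0 + x1)) + (1 - θ) * (v1 / (v0 + v1)))) *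
          ((x0 + x1) ^ θ * (v0 + v1) ^ (1 - θ)) = (x0 + x1) ^ θ * (v0 + v1) ^ (1 - θ) := by
      rw [e3, one_mul]
    linarith

end HOL_

open HOL_ in
/-- The moment of the capital after the next bit. -/
theorem hol {θ p x0 x1 y s : ℝ} (h0 : 0 < θ) (h1 : θ ≤ 1 / 2) (p0 : 0 ≤ p) (p1 : p ≤ 1)
    (hx0 : 0 ≤ x0) (hx1 : 0 ≤ x1) (hy : 0 ≤ y) (hxy : x0 + x1 ≤ 2 ^ s * y) :
    p * x0 ^ θ + (1 - p) * x1 ^ θ ≤
      exp (θ * (s * log 2 - binEntropy p + 2 * θ)) * y ^ θ := by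
  have hθ : 0 < 1 - θ := by linarith
  obtain ⟨τ, hτ⟩ : ∃ τ, τ = θ / (1 - θ) := ⟨_, rfl⟩
  have hτ0 : 0 ≤ τ := by rw [hτ]; positivity
  have hτ1 : (1 - θ) * τ = θ := by rw [hτ]; field_simp
  have hτ2 : τ ≤ 2 * θ := by
    rw [hτ, div_le_iff₀ hθ]
    nlinarith
  have hτ3 : (1 + τ) * (1 - θ) = 1 := by linarith
  obtain ⟨v0, hv0⟩ : ∃ v0, v0 = p ^ (1 + τ) := ⟨_, rfl⟩
  obtain ⟨v1, hv1⟩ : ∃ v1, v1 = (1 - p) ^ (1 + τ) := ⟨_, rfl⟩
  have q0 : 0 ≤ 1 - p := by linarith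
  have e0 : v0 ^ (1 - θ) = p := by rw [hv0, ← rpow_mul p0, hτ3, rpow_one]
  have e1 : v1 ^ (1 - θ) = 1 - p := by rw [hv1, ← rpow_mul q0, hτ3, rpow_one]
  have hv0' : 0 ≤ v0 := by rw [hv0]; positivity
  have hv1' : 0 ≤ v1 := by rw [hv1]; positivity
  have hV : 0 < v0 + v1 := by
    rcases eq_or_lt_of_le p0 with h | h
    · have : v1 = 1 := by rw [hv1, ← h]; simp
      linarith
    · have : 0 < v0 := by rw [hv0]; exact rpow_pos_of_pos h _
      linarith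
  have hVle : v0 + v1 ≤ exp (-(τ * binEntropy p) + τ ^ 2) := by
    have t0 := term p0 p1 hτ0
    have t1 := term q0 (by linarith) hτ0
    have h2 := add_one_le_exp (-(τ * binEntropy p) + τ ^ 2)
    rw [binEntropy_eq_negMulLog_add_negMulLog_one_sub] at h2 ⊢
    rw [hv0, hv1]
    linarith
  have hVle' : (v0 + v1) ^ (1 - θ) ≤ exp (-(θ * binEntropy p) + 2 * θ ^ 2) := by
    calc (v0 + v1) ^ (1 - θ) ≤ exp (-(τ * binEntropy p) + τ ^ 2) ^ (1 - θ) := by gcongr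
      _ = exp ((-(τ * binEntropy p) + τ ^ 2) * (1 - θ)) := by rw [exp_mul]
      _ ≤ exp (-(θ * binEntropy p) + 2 * θ ^ 2) := by
        apply exp_le_exp.2
        have h2 : (-(τ * binEntropy p) + τ ^ 2) * (1 - θ) =
            -(((1 - θ) * τ) * binEntropy p) + ((1 - θ) * τ) * τ := by ring
        rw [h2, hτ1]
        have h3 : θ * τ ≤ θ * (2 * θ) := by gcongr
        linarith
  have hX : (x0 + x1) ^ θ ≤ exp (θ * (s * log 2)) * y ^ θ := by
    calc (x0 + x1) ^ θ ≤ ((2 : ℝ) ^ s * y) ^ θ := by gcongr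
      _ = ((2 : ℝ) ^ s) ^ θ * y ^ θ := mul_rpow (by positivity) hy
      _ = exp (θ * (s * log 2)) * y ^ θ := by
        rw [← rpow_mul (by norm_num), rpow_def_of_pos (by norm_num)]
        congr 2
        ring
  have hh := holder2 h0 (by linarith : θ ≤ 1) hx0 hx1 hv0' hv1' hV
  rw [e0, e1] at hh
  calc p * x0 ^ θ + (1 - p) * x1 ^ θ = x0 ^ θ * p + x1 ^ θ * (1 - p) := by ring
    _ ≤ (x0 + x1) ^ θ * (v0 + v1) ^ (1 - θ) := hh
    _ ≤ (exp (θ * (s * log 2)) * y ^ θ) * exp (-(θ * binEntropy p) + 2 * θ ^ 2) := by gcongr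
    _ = _ := by
      rw [mul_right_comm, ← exp_add]
      congr 2
      ring

end Pool.Agent.RelT
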