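import Mathlib

/-!
# The mean of a power of a supergale
-/

set_option autoImplicit false

namespace Pool.Agent.RelT

namespace HOLB_

open Real

lemma exp_neg_le {y : ℝ} (hy : 0 ≤ y) : exp (-y) ≤ 1 - y + y ^ 2 / 2 := by
  have h1 := Real.quadratic_le_exp_of_nonneg hy
  have h2 : 0 < exp y := exp_pos y
  rw [exp_neg, inv_eq_one_div, div_le_iff₀ h2]
  have h3 : 0 ≤ 1 - y + y ^ 2 / 2 := by nlinarith [sq_nonneg (y - 1)]
  have h4 : (1 - y + y ^ 2 / 2) * (1 + y + y ^ 2 / 2) ≤ (1 - y + y ^ 2 / 2) * exp y :=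
    mul_le_mul_of_nonneg_left h1 h3
  nlinarith [pow_nonneg hy 4]

/-- A term of the sum. -/
lemma term {p β : ℝ} (hp0 : 0 ≤ p) (hp1 : p ≤ 1) (hβ : 0 ≤ β) :
    p ^ (1 + β) ≤ p - β * (p * log p⁻¹) + β ^ 2 := by
  rcases eq_or_lt_of_le hp0 with h | h
  · rw [← h, zero_rpow (by linarith)]
    simp only [zero_mul, mul_zero, sub_zero, zero_add]
    positivity
  · set u : ℝ := log p⁻¹ with hu
    have hu0 : 0 ≤ u := log_nonneg ((one_le_inv₀ h).2 hp1)
    have hpu : p = exp (-u) := by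
      rw [hu, log_inv, neg_neg, exp_log h]
    have h1 : p ^ (1 + β) = p * exp (-(β * u)) := by
      rw [rpow_add h, rpow_one, rpow_def_of_pos h, hu, log_inv]
      congr 2
      ring
    have h2 := exp_neg_le (mul_nonneg hβ hu0)
    have h3 : p * (u ^ 2 / 2) ≤ 1 := by
      have h4 : u ^ 2 / 2 ≤ exp u := by
        have := Real.quadratic_le_exp_of_nonneg hu0
        linarith
      calc p * (u ^ 2 / 2) ≤ p * exp u := mul_le_mul_of_nonneg_left h4 hp0
        _ = 1 := by rw [hpu, ← exp_add]; simp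
    rw [h1]
    calc p * exp (-(β * u)) ≤ p * (1 - β * u + (β * u) ^ 2 / 2) :=
          mul_le_mul_of_nonneg_left h2 hp0
      _ = p - β * (p * u) + β ^ 2 * (p * (u ^ 2 / 2)) := by ring
      _ ≤ p - β * (p * u) + β ^ 2 * 1 := by
          have := mul_le_mul_of_nonneg_left h3 (sq_nonneg β)
          linarith
      _ = _ := by ring

end HOLB_

open Real HOLB_ in
/-- The mean of a power of a supergale. -/
theorem holb {θ η p x y : ℝ} (h0 : 0 < θ) (h1 : θ < 1) (hη : 2 * θ ≤ η * (1 - θ)) (hp0 : 0 ≤ p)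
    (hp1 : p ≤ 1) (hx : 0 ≤ x) (hy : 0 ≤ y) :
    p * x ^ θ + (1 - p) * y ^ θ ≤ (x + y) ^ θ * exp (-(θ * (binEntropy p - η))) := by
  have hθ' : 0 < 1 - θ := by linarith
  set β : ℝ := θ / (1 - θ) with hβ
  have hβ0 : 0 ≤ β := by positivity
  have hq : 0 ≤ 1 - p := by linarith
  have hconj : (1 / θ).HolderConjugate (1 / (1 - θ)) := by
    rw [Real.holderConjugate_iff]
    refine ⟨?_, ?_⟩
    · rw [one_div]
      exact (one_lt_inv₀ h0).2 h1
    · rw [one_div, one_div, inv_inv, inv_inv]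
      ring
  have h2 := Real.inner_le_Lp_mul_Lq (Finset.univ : Finset Bool)
    (fun b => if b = false then x ^ θ else y ^ θ) (fun b => if b = false then p else 1 - p) hconj
  simp only [Fintype.sum_bool, Bool.true_eq_false, if_false, if_true] at h2
  have hinv : ∀ z : ℝ, 0 ≤ z → |z ^ θ| ^ (1 / θ) = z := by
    intro z hz
    rw [abs_of_nonneg (rpow_nonneg hz _), ← rpow_mul hz, mul_one_div_cancel h0.ne', rpow_one]
  rw [hinv y hy, hinv x hx, one_div_one_div, one_div_one_div, abs_of_nonneg hp0,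
    abs_of_nonneg hq] at h2
  have h3 : 1 / (1 - θ) = 1 + β := by
    rw [hβ]
    field_simp
    ring
  rw [h3] at h2
  have h4 : (1 - p) ^ (1 + β) + p ^ (1 + β) ≤ exp (-(β * (binEntropy p - 2 * β))) := by
    have e1 := term hp0 hp1 hβ0
    have e2 := term hq (by linarith) hβ0
    have e3 : binEntropy p = p * log p⁻¹ + (1 - p) * log (1 - p)⁻¹ := rfl
    have e4 := Real.add_one_le_exp (-(β * (binEntropy p - 2 * β)))
    refine le_trans ?_ e4
    rw [e3]
    nlinarith
  have h5 : ((1 - p) ^ (1 + β) + p ^ (1 + β)) ^ (1 - θ) ≤ exp (-(θ * (binEntropy p - η))) := by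
    have e0 : 0 ≤ (1 - p) ^ (1 + β) + p ^ (1 + β) :=
      add_nonneg (rpow_nonneg hq _) (rpow_nonneg hp0 _)
    calc ((1 - p) ^ (1 + β) + p ^ (1 + β)) ^ (1 - θ)
        ≤ exp (-(β * (binEntropy p - 2 * β))) ^ (1 - θ) := rpow_le_rpow e0 h4 hθ'.le
      _ = exp (-(β * (binEntropy p - 2 * β)) * (1 - θ)) := by rw [← exp_mul]
      _ ≤ exp (-(θ * (binEntropy p - η))) := by
          apply exp_le_exp.2
          have e1 : β * (1 - θ) = θ := by rw [hβ]; field_simp
          have e2 : 2 * β ≤ η := by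
            rw [hβ, mul_div_assoc', div_le_iff₀ hθ']
            exact hη
          have e3 : -(β * (binEntropy p - 2 * β)) * (1 - θ) =
              -(β * (1 - θ) * (binEntropy p - 2 * β)) := by ring
          rw [e3, e1]
          have e4 : θ * (binEntropy p - η) ≤ θ * (binEntropy p - 2 * β) :=
            mul_le_mul_of_nonneg_left (by linarith) h0.le
          linarith
  calc p * x ^ θ + (1 - p) * y ^ θ = y ^ θ * (1 - p) + x ^ θ * p := by ring
    _ ≤ (y + x) ^ θ * ((1 - p) ^ (1 + β) + p ^ (1 + β)) ^ (1 - θ) := h2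
    _ ≤ (y + x) ^ θ * exp (-(θ * (binEntropy p - η))) :=
        mul_le_mul_of_nonneg_left h5 (rpow_nonneg (by linarith) _)
    _ = _ := by rw [add_comm y x]

end Pool.Agent.RelT
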