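import Pool.Agent.RelO.MAIN
import Pool.Agent.RelO.LEV
import Pool.Agent.RelO.QRY
import Pool.Agent.RelO.NN
import Pool.Agent.RelO.EP
import Pool.Agent.RelO.DEN
import Pool.Agent.RelO.BITS
import Pool.Agent.RelO.ANS
import Pool.Agent.RelO.SYS
import Pool.Agent.RelO.PLIM
import Pool.Agent.RelO.TILT
import Pool.Agent.RelO.CROSS
import Pool.Agent.RelO.GROW
import Pool.Agent.RelO.COVA
import Pool.Agent.RelO.COVB
import Pool.Agent.RelO.HIT
import Pool.Agent.RelO.NONNULL
import Pool.Agent.RelO.FAST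
import Pool.Agent.RelO.NPR
import Pool.Agent.RelO.ER
import Pool.Agent.RelO.FAM
import Pool.Agent.RelM.LOC
import Pool.Agent.RelM.READ
import Pool.Agent.RelM.PROB

/-!
# An oracle relative to which `NP` has measure zero and dimension one
-/

set_option autoImplicit false

namespace Pool.Agent.RelT

open Pool.Agent.RelM (Lang NP E1 E2 Null1 Null2 IsNullCover)
open Pool.Agent.RelO

/-- An oracle relative to which `NP` has measure zero and dimension one. -/
theorem dim_one : ∃ O : Lang, Null1 O (NP O) ∧ Null2 O (NP O) ∧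
    (∀ s : ℝ, s < 1 → ¬ GaleNull1 s O (NP O ∩ E1 O) ∧ ¬ GaleNull2 s O (NP O ∩ E2 O)) := by
  have hAns : T_ANSLOC := ansloc oloc (bloc dlocal) nnmono nnq nnnext
  have hHl : T_HLDEP := hldep nnmono
  have hSys : T_SYS := sys hAns hHl eppos nnmono shortfin
  have hMaj : T_MAJ := majok hAns hHl shortfin
  have hA : T_COVA := cova grow hintp hMaj hSys eppos epdiv
  have hB : T_COVB := covb hAns hlval xxstr nnmono nnge
  have hHit : T_HIT := hit hSys keyp ocut ovis (bloc dlocal) hlval hHl jjspec nnmono levmono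
  have hN : T_NONNULL := nonnull hHit cross sv hSys Pool.Agent.RelM.fd ovis hHl jjspec nnmono
    levmono levfin eplim Pool.Agent.RelM.strlen Pool.Agent.RelM.strinj
  obtain ⟨O, h1, h2, _, h3⟩ := main_of fam plim hSys hA hB (ddens nnmono nnge eppos) dlam
    (dlow eppos) nnge ott (Pool.Agent.RelM.read Pool.Agent.RelM.stay) bits
    (numok (ddens nnmono nnge eppos) dlam)
    time t12 hN fast1 fast2 (npr Pool.Agent.RelM.stay owq levpow) (e1r osq0 osq1) (e2r osq0 osq1)
    (fun _ _ _ => false) (fun _ => 0) (fun _ _ _ _ _ => rfl)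
  have key : ∀ d : ℕ → List Bool → ℝ,
      IsNullCover d (NP O ∪ Set.range fun _ : ℕ => (fun _ => false : Lang)) →
      IsNullCover d (NP O) := fun d hd k =>
    ⟨(hd k).1, (hd k).2.1, fun A hA => (hd k).2.2 A (Or.inl hA)⟩
  obtain ⟨d, hd, h4⟩ := h1
  obtain ⟨d', hd', h5⟩ := h2
  exact ⟨O, ⟨d, key d hd, h4⟩, ⟨d', key d' hd', h5⟩, h3⟩

end Pool.Agent.RelT
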