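import Pool.Agent.RelT.ACC

/-!
# The best option, and the loss of the gambler
-/

set_option autoImplicit false

namespace Pool.Agent.RelT

open MeasureTheory Set
open scoped ENNReal
open Pool.Agent.RelM (Lang Instr Cfg run Halts pair triple str pre hq wq sq0 sq1 Asks code qb)
open Pool.Agent.RelO (lev st)
open Pool.Agent.RelS (Z Rl orcV orc acc mc Idx Om Dep mixP gf PF Low fd meas_of_dep mixP_pos
  mixP_neg mixP_meas)

theorem stg_of {Φ : Par} {j : ℕ} {h : Hist} (hK : ∀ i, i ≤ j → h.1 i < Φ.K) (ω : Om) :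
    best Φ j h ω < Φ.K ∧ He Φ j h ω (best Φ j h ω) ≤
      (Φ.a * Real.log 2 + 1 / ((j : ℝ) + 1)) * 2 ^ (nn Φ j + j) := by
  obtain ⟨R, hR⟩ : ∃ R, R = (Φ.a * Real.log 2 + 1 / ((j : ℝ) + 1)) * 2 ^ (nn Φ j + j) :=
    ⟨_, rfl⟩
  have hsum : ∑ i ∈ Finset.range Φ.K, Φ.pv i * He Φ j h ω i ≤ R := by
    unfold He
    simp only [Finset.mul_sum]
    rw [Finset.sum_comm]
    have hc : 0 ≤ Φ.a * Real.log 2 + 1 / ((j : ℝ) + 1) := by
      have h1 := Φ.a0
      have h2 : 0 < Real.log 2 := Real.log_pos (by norm_num)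
      positivity
    calc ∑ t ∈ Wd Φ j, ∑ i ∈ Finset.range Φ.K, Φ.pv i * Real.binEntropy (pa Φ j h ω t i)
        ≤ ∑ t ∈ Wd Φ j, (Φ.a * Real.log 2 + 1 / ((j : ℝ) + 1)) :=
          Finset.sum_le_sum fun t ht => uni Φ j t h ω ht hK
      _ = (Wd Φ j).card * (Φ.a * Real.log 2 + 1 / ((j : ℝ) + 1)) := by
          rw [Finset.sum_const, nsmul_eq_mul]
      _ ≤ 2 ^ (nn Φ j + j) * (Φ.a * Real.log 2 + 1 / ((j : ℝ) + 1)) := by
          refine mul_le_mul_of_nonneg_right ?_ hc
          have : (Wd Φ j).card ≤ 2 ^ (nn Φ j + j) := by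
            unfold Wd
            rw [Nat.card_Ico]
            exact Nat.sub_le _ _
          exact_mod_cast this
      _ = R := by rw [hR, mul_comm]
  have hex : ∃ i < Φ.K, He Φ j h ω i ≤ R := by
    by_contra hcon
    push Not at hcon
    have h1 : ∑ i ∈ Finset.range Φ.K, Φ.pv i * R < ∑ i ∈ Finset.range Φ.K, Φ.pv i * He Φ j h ω i := by
      refine Finset.sum_lt_sum (fun i hi => ?_) ?_
      · exact mul_le_mul_of_nonneg_left (hcon i (Finset.mem_range.1 hi)).le (Φ.pv0 i)
      · by_contra h2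
        push Not at h2
        have h3 : ∀ i ∈ Finset.range Φ.K, Φ.pv i = 0 := by
          intro i hi
          by_contra h4
          have h5 : 0 < Φ.pv i := lt_of_le_of_ne (Φ.pv0 i) (Ne.symm h4)
          have h6 := h2 i hi
          have h7 := hcon i (Finset.mem_range.1 hi)
          nlinarith
        have h8 := Φ.pv1
        rw [Finset.sum_eq_zero h3] at h8
        exact zero_ne_one h8
    rw [← Finset.sum_mul, Φ.pv1, one_mul] at h1
    linarith
  rw [hR] at hex
  refine ⟨best_lt _ _ _ _, ?_⟩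
  unfold best
  rw [dif_pos hex]
  exact hex.choose_spec.2

theorem stg : T_STG := fun Φ j ω => stg_of (fun i _ => opt Φ ω j i) ω

end Pool.Agent.RelT
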